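import Pool.Agent.Y516.CP.Fin

set_option autoImplicit false

open MeasureTheory Metric Set Filter Topology
open scoped ENNReal ContDiff RealInnerProductSpace

namespace Pool.Agent.Y516.CP

open Pool.Agent.Results.MP_cf1990_gt.EveryDim

variable {n : ℕ}

/-- the derivative of the profile -/
noncomputable def dprof (x : ℝ) : ℝ := ∑' k, -2 * max (rad k ^ 2 - max x 0) 0

theorem continuous_dprof : Continuous dprof := by
  unfold dprof
  have hs : Summable fun k => 2 * rad k ^ 2 := by
    refine Summable.of_nonneg_of_le (fun k => by positivity) (fun k => ?_)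
      (summable_geometric_of_lt_one (r := (1 : ℝ) / 2) (by norm_num) (by norm_num))
    have h1 := rad_le_geom k
    have h2 := rad_pos k
    have h3 := rad_le_half k
    nlinarith
  refine continuous_tsum (u := fun k => 2 * rad k ^ 2) (fun k => by fun_prop) hs (fun k x => ?_)
  have h1 : 0 ≤ max x 0 := le_max_right _ _
  have h2 : max (rad k ^ 2 - max x 0) 0 ≤ rad k ^ 2 := max_le (by linarith) (by positivity)
  have h3 : ‖(-2 : ℝ)‖ = 2 := by norm_num
  rw [norm_mul, h3, Real.norm_of_nonneg (le_max_right _ _)]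
  linarith

theorem prof_hasDerivAt {x : ℝ} (hx : 0 < x) : HasDerivAt prof (dprof x) x := by
  obtain ⟨N, hN⟩ := prof_eventually hx
  have h1 : Tendsto (fun k => rad k ^ 2) atTop (𝓝 0) := by
    simpa using rad_tendsto.pow 2
  obtain ⟨N', hN'⟩ := (h1.eventually (gt_mem_nhds hx)).exists_forall_of_atTop
  have h2 := hN (max N N') (le_max_left _ _)
  have h3 : HasDerivAt (fun y => ∑ k ∈ Finset.range (max N N'), term (rad k ^ 2) y)
      (∑ k ∈ Finset.range (max N N'), -2 * max (rad k ^ 2 - x) 0) x :=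
    HasDerivAt.fun_sum fun k _ => term_hasDerivAt _ _
  have h4 : dprof x = ∑ k ∈ Finset.range (max N N'), -2 * max (rad k ^ 2 - x) 0 := by
    unfold dprof
    rw [max_eq_left hx.le]
    refine tsum_eq_sum fun k hk => ?_
    have h5 : max N N' ≤ k := by simpa using hk
    have h6 := hN' k ((le_max_right _ _).trans h5)
    rw [max_eq_right (by linarith)]; simp
  rw [h4]
  exact h3.congr_of_eventuallyEq h2

theorem tw_pr_hasFDerivAt (σ : ℝ) (z : E n) :
    HasFDerivAt (tw (pr σ 1)) (dtw (pr σ 1 (‖z‖ ^ 2)) (σ * dprof (‖z‖ ^ 2)) z) z := by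
  have e : pr σ 1 = fun x => σ * prof x := by ext x; simp [pr]
  by_cases hz : z = 0
  · subst hz
    have h1 : (dtw (pr σ 1 (‖(0 : E n)‖ ^ 2)) (σ * dprof (‖(0 : E n)‖ ^ 2)) 0 : E n →L[ℝ] E n) =
        dtw (pr σ 1 0) 0 0 := by
      ext1 u
      rw [dtw_apply, dtw_apply]
      simp
    rw [h1]
    exact hasFDerivAt_tw_zero (continuous_pr σ 1)
  · have h1 : 0 < ‖z‖ ^ 2 := by
      have := norm_pos_iff.mpr hz
      positivity
    refine hasFDerivAt_tw ?_
    rw [e]
    exact (prof_hasDerivAt h1).const_mul σ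

theorem tw_pr_contDiff (σ : ℝ) : ContDiff ℝ 1 (tw (pr σ 1) : E n → E n) := by
  rw [contDiff_one_iff_hasFDerivAt]
  refine ⟨_, ?_, tw_pr_hasFDerivAt σ⟩
  have h1 := continuous_dprof
  have h2 := continuous_pr σ 1
  have h3 : Continuous fun z : E n => Jc z := Jc.continuous
  unfold dtw rotL rot
  have h4 : Continuous fun z : E n => J (Real.cos (pr σ 1 (‖z‖ ^ 2)) • z +
      Real.sin (pr σ 1 (‖z‖ ^ 2)) • J z) := by
    have h5 : Continuous fun z : E n => (Jc (Real.cos (pr σ 1 (‖z‖ ^ 2)) • z +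
      Real.sin (pr σ 1 (‖z‖ ^ 2)) • Jc z) : E n) := by fun_prop
    exact h5
  have h6 : Continuous fun z : E n => innerSL ℝ z := (innerSL ℝ (E := E n)).continuous
  have h7 : Continuous fun z : E n => ((2 * (σ * dprof (‖z‖ ^ 2))) • innerSL ℝ z :
      E n →L[ℝ] ℝ) := by fun_prop
  refine Continuous.add (by fun_prop) ?_
  exact (ContinuousLinearMap.smulRightL ℝ (E n) (E n)).continuous₂.comp (h7.prodMk h4)

/-- uniform approximation by symplectomorphisms -/
theorem phi_approx {ε : ℝ} (hε : 0 < ε) : ∃ ψ : E n ≃ E n, IsSymplecto ψ ∧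
    ∀ z, dist (ψ z) ((phi : E n ≃ₜ E n) z) ≤ ε ∧
      dist (ψ.symm z) ((phi : E n ≃ₜ E n).symm z) ≤ ε := by
  obtain ⟨p, hp⟩ := exists_polynomial_near_of_continuousOn 0 1 prof continuous_prof.continuousOn
    (ε / 2) (by positivity)
  set b : ℝ → ℝ := fun x => Real.smoothTransition (4 / 3 * (1 - x)) with hb
  have hbs : ContDiff ℝ ∞ b := Real.smoothTransition.contDiff.comp (by fun_prop)
  set g : ℝ → ℝ := fun x => b x * p.eval x with hg
  have hgs : ContDiff ℝ ∞ g := hbs.mul (poly_contDiff p)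
  have hprof0 : ∀ x : ℝ, 1 / 4 ≤ x → prof x = 0 := by
    intro x hx
    unfold prof
    rw [max_eq_left (by linarith)]
    have : ∀ k, term (rad k ^ 2) x = 0 := by
      intro k
      unfold term
      have h1 := rad_le_half k
      have h2 := rad_pos k
      rw [max_eq_right (by nlinarith)]; simp
    simp [this]
  have key : ∀ x : ℝ, 0 ≤ x → |g x - prof x| * (2 * √x) ≤ ε := by
    intro x hx
    by_cases h1 : 1 ≤ x
    · have h2 : b x = 0 := Real.smoothTransition.zero_of_nonpos (by linarith)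
      simp only [hg]
      rw [h2, hprof0 x (by linarith)]
      simp [hε.le]
    · push Not at h1
      have h2 := (hp x ⟨hx, h1.le⟩).le
      have h3 : |g x - prof x| ≤ ε / 2 := by
        by_cases h4 : 1 / 4 ≤ x
        · rw [hprof0 x h4, sub_zero] at h2 ⊢
          simp only [hg]
          rw [abs_mul, abs_of_nonneg (Real.smoothTransition.nonneg _)]
          have h5 : b x ≤ 1 := Real.smoothTransition.le_one _
          have := abs_nonneg (p.eval x)
          nlinarith
        · push Not at h4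
          have h5 : b x = 1 := Real.smoothTransition.one_of_one_le (by linarith)
          simp only [hg]
          rw [h5, one_mul]; exact h2
      have h4 : √x ≤ 1 := Real.sqrt_le_one.mpr h1.le
      have h5 := Real.sqrt_nonneg x
      have h6 := abs_nonneg (g x - prof x)
      nlinarith
  refine ⟨twE g, isSymplecto_tw hgs, fun z => ⟨?_, ?_⟩⟩
  · have h1 : dist (tw g z) (tw prof z) ≤ |g (‖z‖ ^ 2) - prof (‖z‖ ^ 2)| * (2 * ‖z‖) :=
      dist_rot_le _ _ _
    have h2 := key (‖z‖ ^ 2) (by positivity)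
    rw [Real.sqrt_sq (norm_nonneg z)] at h2
    have h3 : ((phi : E n ≃ₜ E n) z) = tw prof z := by
      rw [← pr_one_one]; rfl
    rw [h3]
    exact h1.trans h2
  · have h1 : dist (tw (fun x => - g x) z) (tw (fun x => - prof x) z) ≤
        |(- g (‖z‖ ^ 2)) - (- prof (‖z‖ ^ 2))| * (2 * ‖z‖) := dist_rot_le _ _ _
    have h2 := key (‖z‖ ^ 2) (by positivity)
    rw [Real.sqrt_sq (norm_nonneg z)] at h2
    have h3 : ((phi : E n ≃ₜ E n).symm z) = tw (fun x => - prof x) z := by
      rw [← pr_one_one]; rfl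
    rw [h3]
    have h4 : |(- g (‖z‖ ^ 2)) - (- prof (‖z‖ ^ 2))| = |g (‖z‖ ^ 2) - prof (‖z‖ ^ 2)| := by
      rw [← abs_neg]; congr 1; ring
    rw [h4] at h1
    exact h1.trans h2

theorem phi_eq_self {z : E n} (hz : 1 / 2 ≤ ‖z‖) : (phi : E n ≃ₜ E n) z = z := by
  have h3 : ((phi : E n ≃ₜ E n) z) = tw prof z := by
    rw [← pr_one_one]; rfl
  have h4 : prof (‖z‖ ^ 2) = 0 := by
    unfold prof
    have h5 : (1 : ℝ) / 4 ≤ ‖z‖ ^ 2 := by nlinarith
    rw [max_eq_left (by linarith)]
    have : ∀ k, term (rad k ^ 2) (‖z‖ ^ 2) = 0 := by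
      intro k
      unfold term
      have h1 := rad_le_half k
      have h2 := rad_pos k
      rw [max_eq_right (by nlinarith)]; simp
    simp [this]
  rw [h3]
  unfold tw
  rw [h4, rot_zero]

end Pool.Agent.Y516.CP
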