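import Mathlib

set_option autoImplicit false

open Metric Set Filter Topology
open scoped ENNReal ContDiff

namespace Pool.Agent.Y516.CP

/-- the radii of the singular spheres -/
noncomputable def rad (k : ℕ) : ℝ := (1 / 2 : ℝ) ^ ((k + 1) ^ 2)

theorem rad_pos (k : ℕ) : 0 < rad k := by unfold rad; positivity

theorem rad_zero : rad 0 = 1 / 2 := by simp [rad]

theorem rad_anti {j k : ℕ} (h : j ≤ k) : rad k ≤ rad j := by
  unfold rad
  exact pow_le_pow_of_le_one (by norm_num) (by norm_num) (by gcongr)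

theorem rad_far {j k : ℕ} (h : j < k) : rad k ≤ rad j * (1 / 2) ^ (2 * k + 1) := by
  unfold rad
  rw [← pow_add]
  refine pow_le_pow_of_le_one (by norm_num) (by norm_num) ?_
  have h1 : (j + 1) ^ 2 ≤ k ^ 2 := Nat.pow_le_pow_left h 2
  nlinarith

theorem rad_far' {j k : ℕ} (h : k < j) : rad j ≤ rad k * (1 / 2) ^ (2 * k + 3) := by
  refine (rad_anti (show k + 1 ≤ j from h)).trans ?_
  have := rad_far (Nat.lt_succ_self k)
  refine this.trans (le_of_eq ?_)
  rw [Nat.succ_eq_add_one, show 2 * (k + 1) + 1 = 2 * k + 3 by ring]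

theorem rad_lt {j k : ℕ} (h : j < k) : 8 * rad k ≤ rad j := by
  have h1 := rad_far h
  have h2 : ((1 : ℝ) / 2) ^ (2 * k + 1) ≤ (1 / 2) ^ 3 :=
    pow_le_pow_of_le_one (by norm_num) (by norm_num) (by omega)
  have h3 := rad_pos j
  have h4 : rad j * (1 / 2) ^ (2 * k + 1) ≤ rad j * (1 / 2) ^ 3 := by gcongr
  have h5 : rad j * (1 / 2) ^ 3 = rad j / 8 := by ring
  linarith

theorem rad_strict {j k : ℕ} (h : j < k) : rad k < rad j := by
  have h1 := rad_lt h
  have h2 := rad_pos k
  linarith

theorem rad_inj {j k : ℕ} (h : rad j = rad k) : j = k := by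
  rcases lt_trichotomy j k with h1 | h1 | h1
  · exact absurd h (rad_strict h1).ne'
  · exact h1
  · exact absurd h (rad_strict h1).ne

theorem rad_le_half (k : ℕ) : rad k ≤ 1 / 2 := by
  rw [← rad_zero]; exact rad_anti (Nat.zero_le k)

theorem rad_le_geom (k : ℕ) : rad k ≤ (1 / 2) ^ k := by
  unfold rad
  refine pow_le_pow_of_le_one (by norm_num) (by norm_num) ?_
  nlinarith

theorem rad_tendsto : Tendsto rad atTop (𝓝 0) := by
  refine squeeze_zero (fun k => (rad_pos k).le) rad_le_geom ?_
  exact tendsto_pow_atTop_nhds_zero_of_lt_one (by norm_num) (by norm_num)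

/-- only the same index gives comparable radii -/
theorem rad_comp {m M : ℝ} (hm : 0 < m) (_hM : 0 < M) :
    ∃ k₀ : ℕ, ∀ k, k₀ ≤ k → ∀ j, m * rad k ≤ rad j → rad j ≤ M * rad k → j = k := by
  have h1 : Tendsto (fun k : ℕ => ((1 : ℝ) / 2) ^ (2 * k + 1)) atTop (𝓝 0) := by
    have := (tendsto_pow_atTop_nhds_zero_of_lt_one (r := (1 : ℝ) / 2) (by norm_num)
      (by norm_num)).comp (tendsto_atTop_mono (fun k : ℕ => (by omega : k ≤ 2 * k + 1)) tendsto_id)
    exact this
  obtain ⟨k₀, hk₀⟩ := ((h1.eventually (gt_mem_nhds hm)).and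
    (h1.eventually (gt_mem_nhds (show (0 : ℝ) < 1 / (M + 1) by positivity)))).exists_forall_of_atTop
  refine ⟨k₀, fun k hk j h2 h3 => ?_⟩
  obtain ⟨h4, h5⟩ := hk₀ k hk
  have hp := rad_pos k
  rcases lt_trichotomy j k with h | h | h
  · exfalso
    have h6 := rad_far h
    have hj := rad_pos j
    have h7 : rad j * (1 / 2) ^ (2 * k + 1) < rad j * (1 / (M + 1)) := by gcongr
    have h8 : rad j * (1 / (M + 1)) ≤ M * rad k * (1 / (M + 1)) := by gcongr
    have h9 : M * rad k * (1 / (M + 1)) ≤ rad k := by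
      rw [mul_one_div, div_le_iff₀ (by positivity)]
      nlinarith
    linarith
  · exact h
  · exfalso
    have h6 := rad_far' h
    have h7 : ((1 : ℝ) / 2) ^ (2 * k + 3) ≤ (1 / 2) ^ (2 * k + 1) :=
      pow_le_pow_of_le_one (by norm_num) (by norm_num) (by omega)
    have h8 : rad k * (1 / 2) ^ (2 * k + 3) < rad k * m := by
      have : ((1 : ℝ) / 2) ^ (2 * k + 3) < m := lt_of_le_of_lt h7 h4
      gcongr
    linarith

/-- one term of the profile -/
noncomputable def term (a x : ℝ) : ℝ := (max (a - x) 0) ^ 2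

theorem term_hasDerivAt (a x : ℝ) : HasDerivAt (term a) (-2 * max (a - x) 0) x := by
  rcases lt_trichotomy x a with h | h | h
  · have h1 : HasDerivAt (fun x : ℝ => (a - x) ^ 2) (-2 * max (a - x) 0) x := by
      rw [max_eq_left (by linarith)]
      have h2 := ((hasDerivAt_id x).const_sub a).fun_pow 2
      refine h2.congr_deriv ?_
      simp
    refine h1.congr_of_eventuallyEq ?_
    filter_upwards [gt_mem_nhds h] with y hy
    unfold term
    rw [max_eq_left (by linarith)]
  · subst h
    have h1 : (-2 : ℝ) * max (x - x) 0 = 0 := by simp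
    rw [h1, hasDerivAt_iff_isLittleO]
    have h2 : (fun y : ℝ => term x y - term x x - (y - x) • (0 : ℝ)) =O[𝓝 x]
        fun y => ‖y - x‖ ^ 2 := by
      refine Asymptotics.isBigO_of_le _ fun y => ?_
      unfold term
      have h3 : 0 ≤ max (x - y) 0 := le_max_right _ _
      have h4 : max (x - y) 0 ≤ ‖y - x‖ := by
        apply max_le
        · rw [Real.norm_eq_abs, abs_sub_comm]; exact le_abs_self _
        · positivity
      have h5 : (max (x - y) 0) ^ 2 - (max (x - x) 0) ^ 2 - (y - x) • (0 : ℝ) =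
          (max (x - y) 0) ^ 2 := by simp
      rw [h5, norm_pow, norm_pow, norm_norm, Real.norm_of_nonneg h3]
      gcongr
    exact h2.trans_isLittleO (Asymptotics.isLittleO_pow_sub_sub x (by norm_num))
  · have h1 : HasDerivAt (fun _ : ℝ => (0 : ℝ)) (-2 * max (a - x) 0) x := by
      rw [max_eq_right (by linarith)]
      simpa using hasDerivAt_const x (0 : ℝ)
    refine h1.congr_of_eventuallyEq ?_
    filter_upwards [lt_mem_nhds h] with y hy
    unfold term
    rw [max_eq_right (by linarith)]; simp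

theorem term_contDiffAt {a x : ℝ} (h : x ≠ a) : ContDiffAt ℝ 2 (term a) x := by
  rcases lt_or_gt_of_ne h with h | h
  · have h1 : ContDiffAt ℝ 2 (fun x : ℝ => (a - x) ^ 2) x := by fun_prop
    refine h1.congr_of_eventuallyEq ?_
    filter_upwards [gt_mem_nhds h] with y hy
    unfold term
    rw [max_eq_left (by linarith)]
  · have h1 : ContDiffAt ℝ 2 (fun _ : ℝ => (0 : ℝ)) x := contDiffAt_const
    refine h1.congr_of_eventuallyEq ?_
    filter_upwards [lt_mem_nhds h] with y hy
    unfold term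
    rw [max_eq_right (by linarith)]; simp

theorem term_not_contDiffAt (a : ℝ) : ¬ ContDiffAt ℝ 2 (term a) a := by
  intro h
  have h1 : ContDiffAt ℝ ((1 : ℕ) + 1) (term a) a := by
    have e : (((1 : ℕ) : WithTop ℕ∞) + 1) = 2 := by norm_num
    rw [e]; exact h
  rw [contDiffAt_succ_iff_hasFDerivAt] at h1
  obtain ⟨f', ⟨u, hu, h2⟩, h3⟩ := h1
  have h4 : DifferentiableAt ℝ f' a := h3.differentiableAt (by simp)
  have h5 : DifferentiableAt ℝ (fun y => f' y 1) a := by fun_prop
  have h6 : (fun y => f' y 1) =ᶠ[𝓝 a] fun y => -2 * max (a - y) 0 := by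
    filter_upwards [hu] with y hy
    have h7 := (h2 y hy).unique (term_hasDerivAt a y).hasFDerivAt
    rw [h7]; simp
  have h7 : DifferentiableAt ℝ (fun y => -2 * max (a - y) 0) a := h5.congr_of_eventuallyEq h6.symm
  apply not_differentiableAt_abs_zero
  have h8 : (fun t : ℝ => |t|) = fun t => - (-2 * max (a - (a - t)) 0) - t := by
    ext t
    rcases le_total 0 t with ht | ht
    · rw [abs_of_nonneg ht, max_eq_left (by linarith)]; ring
    · rw [abs_of_nonpos ht, max_eq_right (by linarith)]; ring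
  have h9 : DifferentiableAt ℝ (fun t : ℝ => -2 * max (a - (a - t)) 0) 0 := by
    have h10 : DifferentiableAt ℝ (fun t : ℝ => a - t) 0 := by fun_prop
    have h11 : DifferentiableAt ℝ (fun y => -2 * max (a - y) 0) ((fun t : ℝ => a - t) 0) := by
      simpa using h7
    exact DifferentiableAt.comp (𝕜 := ℝ) (g := fun y : ℝ => -2 * max (a - y) 0)
      (f := fun t : ℝ => a - t) (0 : ℝ) h11 h10
  rw [show (abs : ℝ → ℝ) = fun t : ℝ => |t| from rfl, h8]
  fun_prop

/-- the profile -/
noncomputable def prof (x : ℝ) : ℝ := ∑' k, term (rad k ^ 2) (max x 0)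

theorem term_bound {a x : ℝ} (ha : 0 ≤ a) (hx : 0 ≤ x) : ‖term a x‖ ≤ a ^ 2 := by
  unfold term
  rw [norm_pow, Real.norm_of_nonneg (le_max_right _ _)]
  have : max (a - x) 0 ≤ a := max_le (by linarith) ha
  have h0 : 0 ≤ max (a - x) 0 := le_max_right _ _
  gcongr

theorem summable_rad : Summable fun k => (rad k ^ 2) ^ 2 := by
  refine Summable.of_nonneg_of_le (fun k => by positivity) (fun k => ?_)
    (summable_geometric_of_lt_one (r := (1 : ℝ) / 2) (by norm_num) (by norm_num))
  have h1 := rad_le_geom k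
  have h2 := rad_pos k
  have h3 := rad_le_half k
  have h4 : rad k ^ 2 ≤ 1 := by nlinarith
  have h5 : rad k ^ 2 ≤ rad k := by nlinarith
  have h6 : (rad k ^ 2) ^ 2 ≤ rad k ^ 2 := by
    have : 0 ≤ rad k ^ 2 := by positivity
    nlinarith
  linarith

theorem continuous_prof : Continuous prof := by
  unfold prof
  refine continuous_tsum (u := fun k => (rad k ^ 2) ^ 2) (fun k => ?_) summable_rad (fun k x => ?_)
  · unfold term; fun_prop
  · exact term_bound (by positivity) (le_max_right _ _)

/-- away from zero the profile is a finite sum -/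
theorem prof_eventually {x : ℝ} (hx : 0 < x) :
    ∃ N : ℕ, ∀ M, N ≤ M → prof =ᶠ[𝓝 x] fun y => ∑ k ∈ Finset.range M, term (rad k ^ 2) y := by
  have h1 : Tendsto (fun k => rad k ^ 2) atTop (𝓝 0) := by
    simpa using rad_tendsto.pow 2
  obtain ⟨N, hN⟩ := (h1.eventually (gt_mem_nhds (half_pos hx))).exists_forall_of_atTop
  refine ⟨N, fun M hM => ?_⟩
  filter_upwards [lt_mem_nhds (half_lt_self hx)] with y hy
  unfold prof
  rw [max_eq_left (by linarith)]
  refine tsum_eq_sum fun k hk => ?_
  have h2 : M ≤ k := by simpa using hk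
  have h3 := hN k (hM.trans h2)
  unfold term
  rw [max_eq_right (by linarith)]; simp

theorem prof_differentiableAt {x : ℝ} (hx : 0 < x) : DifferentiableAt ℝ prof x := by
  obtain ⟨N, hN⟩ := prof_eventually hx
  have h1 : DifferentiableAt ℝ (fun y => ∑ k ∈ Finset.range N, term (rad k ^ 2) y) x := by
    refine DifferentiableAt.fun_sum fun k _ => ?_
    exact (term_hasDerivAt _ _).differentiableAt
  exact h1.congr_of_eventuallyEq (hN N le_rfl)

theorem prof_contDiffAt {x : ℝ} (hx : 0 < x) (h : ∀ k, x ≠ rad k ^ 2) : ContDiffAt ℝ 2 prof x := by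
  obtain ⟨N, hN⟩ := prof_eventually hx
  have h1 : ContDiffAt ℝ 2 (fun y => ∑ k ∈ Finset.range N, term (rad k ^ 2) y) x :=
    ContDiffAt.sum fun k _ => term_contDiffAt (h k)
  exact h1.congr_of_eventuallyEq (hN N le_rfl)

theorem prof_not_contDiffAt (j : ℕ) : ¬ ContDiffAt ℝ 2 prof (rad j ^ 2) := by
  intro h
  have hj := rad_pos j
  obtain ⟨N, hN⟩ := prof_eventually (show 0 < rad j ^ 2 by positivity)
  have h1 := hN (max N (j + 1)) (le_max_left _ _)
  set M := max N (j + 1) with hM
  have hjM : j ∈ Finset.range M := by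
    rw [Finset.mem_range]
    exact lt_of_lt_of_le (Nat.lt_succ_self j) (le_max_right _ _)
  have h2 : ContDiffAt ℝ 2 (fun y => ∑ k ∈ (Finset.range M).erase j, term (rad k ^ 2) y)
      (rad j ^ 2) := by
    refine ContDiffAt.sum fun k hk => term_contDiffAt ?_
    intro h3
    have h4 : rad j = rad k :=
      (pow_left_inj₀ (rad_pos j).le (rad_pos k).le two_ne_zero).mp h3
    exact (Finset.ne_of_mem_erase hk) (rad_inj h4).symm
  have h3 : ContDiffAt ℝ 2 (fun y => prof y - ∑ k ∈ (Finset.range M).erase j, term (rad k ^ 2) y)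
      (rad j ^ 2) := h.sub h2
  apply term_not_contDiffAt (rad j ^ 2)
  refine h3.congr_of_eventuallyEq ?_
  filter_upwards [h1] with y hy
  rw [hy, ← Finset.add_sum_erase _ _ hjM]
  ring

end Pool.Agent.Y516.CP
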