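import Pool.Agent.Y516.CP.Lim
import Pool.Agent.Y516.CP.Profile

set_option autoImplicit false

open MeasureTheory Metric Set Filter Topology
open scoped ENNReal ContDiff RealInnerProductSpace

namespace Pool.Agent.Y516.CP

open Pool.Agent.Results.MP_cf1990_gt.EveryDim

variable {n : ℕ}

/-- a map vanishing only on a nowhere dense part of the unit sphere -/
def Thin (Θ : E n → ℝ) : Prop :=
  Continuous Θ ∧ ∀ u₀ : E n, ‖u₀‖ = 1 → ∀ η : ℝ, 0 < η → ∃ u, ‖u‖ = 1 ∧ dist u u₀ < η ∧ Θ u ≠ 0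

/-- the set of `z` described by `P` meets the sphere of radius `rad k`, for large `k`, only near
the zeros of `Θ` -/
def Ctrl (P : E n → Prop) (Θ : E n → ℝ) : Prop :=
  ∀ δ : ℝ, 0 < δ → ∃ k₀ : ℕ, ∀ k, k₀ ≤ k → ∀ u : E n, ‖u‖ = 1 → P (rad k • u) → |Θ u| < δ

theorem Thin.mul {Θ Θ' : E n → ℝ} (h : Thin Θ) (h' : Thin Θ') : Thin fun u => Θ u * Θ' u := by
  refine ⟨h.1.mul h'.1, fun u₀ h0 η hη => ?_⟩
  obtain ⟨u, hu, hd, hΘ⟩ := h.2 u₀ h0 (η / 2) (by positivity)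
  have h1 : ∀ᶠ w in 𝓝 u, Θ w ≠ 0 := h.1.continuousAt.eventually_ne hΘ
  rw [Metric.eventually_nhds_iff] at h1
  obtain ⟨ε, hε, h2⟩ := h1
  obtain ⟨w, hw, hd', hΘ'⟩ := h'.2 u hu (min ε (η / 2)) (by positivity)
  refine ⟨w, hw, ?_, mul_ne_zero (h2 (lt_of_lt_of_le hd' (min_le_left _ _))) hΘ'⟩
  have := dist_triangle w u u₀
  have := lt_of_lt_of_le hd' (min_le_right _ _)
  linarith

theorem Thin.bdd {Θ : E n → ℝ} (h : Thin Θ) : ∃ M : ℝ, 0 < M ∧ ∀ u, ‖u‖ = 1 → |Θ u| ≤ M := by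
  have hK : IsCompact (Θ '' closedBall 0 1) := (isCompact_closedBall 0 1).image h.1
  obtain ⟨M, hM⟩ := hK.isBounded.subset_closedBall 0
  refine ⟨|M| + 1, by positivity, fun u hu => ?_⟩
  have h1 := hM ⟨u, by simp [hu], rfl⟩
  rw [mem_closedBall_zero_iff, Real.norm_eq_abs] at h1
  have := le_abs_self M
  linarith

theorem Ctrl.mul {P P' : E n → Prop} {Θ Θ' : E n → ℝ} (t : Thin Θ) (t' : Thin Θ')
    (h : Ctrl P Θ) (h' : Ctrl P' Θ') : Ctrl (fun z => P z ∨ P' z) fun u => Θ u * Θ' u := by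
  intro δ hδ
  obtain ⟨M, hM, b⟩ := t.bdd
  obtain ⟨M', hM', b'⟩ := t'.bdd
  obtain ⟨k₁, h1⟩ := h (δ / M') (by positivity)
  obtain ⟨k₂, h2⟩ := h' (δ / M) (by positivity)
  refine ⟨max k₁ k₂, fun k hk u hu hP => ?_⟩
  rw [abs_mul]
  rcases hP with hP | hP
  · have h3 := h1 k ((le_max_left _ _).trans hk) u hu hP
    have h4 := b' u hu
    calc |Θ u| * |Θ' u| ≤ |Θ u| * M' := by gcongr
      _ < δ / M' * M' := by gcongr
      _ = δ := by field_simp
  · have h3 := h2 k ((le_max_right _ _).trans hk) u hu hP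
    have h4 := b u hu
    calc |Θ u| * |Θ' u| ≤ M * |Θ' u| := by gcongr
      _ < M * (δ / M) := by gcongr
      _ = δ := by field_simp

theorem Ctrl.mono {P P' : E n → Prop} {Θ : E n → ℝ} (h : Ctrl P Θ) (hP : ∀ z, P' z → P z) :
    Ctrl P' Θ := by
  intro δ hδ
  obtain ⟨k₀, h1⟩ := h δ hδ
  exact ⟨k₀, fun k hk u hu hz => h1 k hk u hu (hP _ hz)⟩

/-- the class of admissible homeomorphisms -/
structure Cls (χ : E n ≃ₜ E n) : Prop where
  lim : Lim χ
  lim' : Lim χ.symm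
  der : ∀ x, ∃ A : E n →L[ℝ] E n, HasFDerivAt χ A x ∧ ∀ u v, omega (A u) (A v) = omega u v
  ctrl : ∃ Θ : E n → ℝ, Thin Θ ∧ Ctrl (fun z => ¬ ContDiffAt ℝ 2 χ z) Θ

theorem thin_one : Thin (fun _ : E n => (1 : ℝ)) :=
  ⟨continuous_const, fun u₀ h0 η hη => ⟨u₀, h0, by simpa using hη, one_ne_zero⟩⟩

theorem cls_refl : Cls (Homeomorph.refl (E n)) where
  lim := lim_of_symplecto IsSymplecto.refl
  lim' := lim_of_symplecto IsSymplecto.refl
  der x := ⟨ContinuousLinearMap.id ℝ (E n), hasFDerivAt_id x, fun _ _ => rfl⟩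
  ctrl := ⟨fun _ => 1, thin_one, fun _ _ => ⟨0, fun _ _ _ _ h => absurd contDiffAt_id h⟩⟩

/-- composition with a well behaved map -/
theorem Cls.comp {χ τ : E n ≃ₜ E n} (h : Cls χ) (l : Lim τ) (l' : Lim τ.symm)
    (d : ∀ x, ∃ A : E n →L[ℝ] E n, HasFDerivAt τ A x ∧ ∀ u v, omega (A u) (A v) = omega u v)
    (c : ∃ Θ : E n → ℝ, Thin Θ ∧ Ctrl (fun z => ¬ ContDiffAt ℝ 2 τ (χ z)) Θ) :
    Cls (χ.trans τ) where
  lim := l.comp h.lim τ.continuous χ.continuous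
  lim' := h.lim'.comp l' χ.symm.continuous τ.symm.continuous
  der x := by
    obtain ⟨A, hA, hA'⟩ := h.der x
    obtain ⟨B, hB, hB'⟩ := d (χ x)
    exact ⟨B.comp A, hB.comp x hA, fun u v => by
      simp only [ContinuousLinearMap.comp_apply]; rw [hB', hA']⟩
  ctrl := by
    obtain ⟨Θ, t, hΘ⟩ := h.ctrl
    obtain ⟨Θ', t', hΘ'⟩ := c
    refine ⟨_, t.mul t', (Ctrl.mul t t' hΘ hΘ').mono fun z hz => ?_⟩
    by_contra hcon
    push Not at hcon
    exact hz (ContDiffAt.comp (g := τ) z hcon.2 hcon.1)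

/-- a symplectomorphism as a homeomorphism -/
noncomputable def symH (ψ : E n ≃ E n) (h : IsSymplecto ψ) : E n ≃ₜ E n where
  toEquiv := ψ
  continuous_toFun := h.1.continuous
  continuous_invFun := h.2.1.continuous

theorem symplecto_symm {ψ : E n ≃ E n} (h : IsSymplecto ψ) : IsSymplecto ψ.symm := by
  refine ⟨h.2.1, h.1, fun x u v => ?_⟩
  have h1 : HasFDerivAt ψ.symm (fderiv ℝ ψ.symm x) x :=
    ((h.2.1.differentiable (by simp)) x).hasFDerivAt
  have h2 : HasFDerivAt ψ (fderiv ℝ ψ (ψ.symm x)) (ψ.symm x) :=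
    ((h.1.differentiable (by simp)) _).hasFDerivAt
  have h3 := h2.comp x h1
  have h4 : (ψ ∘ ψ.symm) = id := by ext1 z; simp
  rw [h4] at h3
  have h5 := h3.unique (hasFDerivAt_id x)
  have h6 : ∀ w, fderiv ℝ ψ (ψ.symm x) (fderiv ℝ ψ.symm x w) = w := fun w => by
    have := congrArg (fun L : E n →L[ℝ] E n => L w) h5
    simpa using this
  rw [← h.2.2 (ψ.symm x), h6, h6]

theorem Cls.symplecto {χ : E n ≃ₜ E n} (h : Cls χ) {ψ : E n ≃ E n} (hψ : IsSymplecto ψ) :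
    Cls (χ.trans (symH ψ hψ)) := by
  refine h.comp (lim_of_symplecto hψ) (lim_of_symplecto (symplecto_symm hψ)) (fun x => ?_) ?_
  · exact ⟨fderiv ℝ ψ x, ((hψ.1.differentiable (by simp)) x).hasFDerivAt, hψ.2.2 x⟩
  · refine ⟨fun _ => 1, thin_one, fun δ _ => ⟨0, fun k _ u _ h => ?_⟩⟩
    have h2 : ContDiff ℝ 2 ψ := contDiff_infty.1 hψ.1 2
    exact absurd h2.contDiffAt h

/-! ### linear algebra -/

theorem abs_omega_le (u v : E n) : |omega u v| ≤ ‖u‖ * ‖v‖ := by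
  rw [omega_eq]
  refine (abs_real_inner_le_norm _ _).trans ?_
  rw [norm_J]

theorem omega_self_J (u : E n) : omega u (J u) = ‖u‖ ^ 2 := by
  rw [omega_eq, real_inner_self_eq_norm_sq, norm_J]

theorem lower_bound {A : E n →L[ℝ] E n} (hA : ∀ u v, omega (A u) (A v) = omega u v) {u : E n}
    (hu : ‖u‖ = 1) : 1 / (‖A‖ + 1) ≤ ‖A u‖ := by
  have h1 : (1 : ℝ) = omega (A u) (A (J u)) := by rw [hA, omega_self_J, hu]; norm_num
  have h2 : (1 : ℝ) ≤ ‖A u‖ * ‖A‖ := by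
    rw [h1]
    refine (le_abs_self _).trans ((abs_omega_le _ _).trans ?_)
    have h3 : ‖A (J u)‖ ≤ ‖A‖ := by
      have := A.le_opNorm (J u)
      rw [norm_J, hu, mul_one] at this
      exact this
    gcongr
  rw [div_le_iff₀ (by positivity)]
  have := norm_nonneg (A u)
  nlinarith

theorem surj {A : E n →L[ℝ] E n} (hA : ∀ u v, omega (A u) (A v) = omega u v) :
    Function.Surjective A := by
  have hi : Function.Injective (A : E n →ₗ[ℝ] E n) := by
    rw [injective_iff_map_eq_zero]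
    intro u hu
    have h1 : omega (A u) (A (J u)) = ‖u‖ ^ 2 := by rw [hA, omega_self_J]
    have h2 : A u = 0 := hu
    rw [h2] at h1
    have h3 : omega (0 : E n) (A (J u)) = 0 := by
      rw [omega_eq]; simp
    rw [h3] at h1
    have := pow_eq_zero_iff (two_ne_zero) |>.mp h1.symm
    exact norm_eq_zero.mp this
  exact LinearMap.injective_iff_surjective.mp hi

/-- a quadratic map vanishing on an open part of the sphere vanishes -/
theorem quad_zero {F : E n → ℝ} (hom : ∀ (c : ℝ) (v : E n), F v = 0 → F (c • v) = 0)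
    (q : ∀ u v : E n, ∃ b c : ℝ, (∀ t : ℝ, F (u + t • v) = F u + t * b + t ^ 2 * c) ∧
      (b = 0 → c = 0 → F v = 0)) {u₀ : E n} (h0 : ‖u₀‖ = 1) {η : ℝ} (hη : 0 < η)
    (hF : ∀ u, ‖u‖ = 1 → dist u u₀ < η → F u = 0) (v : E n) : F v = 0 := by
  have h1 : Tendsto (fun w : E n => ‖w‖⁻¹ • w) (𝓝 u₀) (𝓝 (‖u₀‖⁻¹ • u₀)) := by
    have hne : ‖u₀‖ ≠ 0 := by rw [h0]; exact one_ne_zero
    exact ((continuous_norm.tendsto u₀).inv₀ hne).smul tendsto_id
  rw [h0, inv_one, one_smul] at h1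
  have h2 : ∀ᶠ w in 𝓝 u₀, F w = 0 := by
    have h3 : ∀ᶠ w in 𝓝 u₀, w ≠ 0 := by
      refine continuousAt_id.eventually_ne ?_
      intro h; simp only [id] at h; rw [h] at h0; simp at h0
    filter_upwards [h1.eventually (Metric.ball_mem_nhds u₀ hη), h3] with w hw hw0
    have hn : ‖w‖ ≠ 0 := norm_ne_zero_iff.mpr hw0
    have h4 : F (‖w‖⁻¹ • w) = 0 := by
      refine hF _ ?_ hw
      rw [norm_smul, norm_inv, norm_norm, inv_mul_cancel₀ hn]
    have h5 := hom ‖w‖ _ h4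
    rwa [smul_smul, mul_inv_cancel₀ hn, one_smul] at h5
  obtain ⟨b, c, hq, hbc⟩ := q u₀ v
  have h3 : Tendsto (fun t : ℝ => u₀ + t • v) (𝓝 0) (𝓝 u₀) := by
    have : Continuous (fun t : ℝ => u₀ + t • v) := by fun_prop
    simpa using this.tendsto 0
  have h4 := h3.eventually h2
  rw [Metric.eventually_nhds_iff] at h4
  obtain ⟨ε, hε, h5⟩ := h4
  have e0 : F u₀ = 0 := h2.self_of_nhds
  have h6 : F (u₀ + (ε / 2) • v) = 0 := h5 (by
    rw [Real.dist_eq, sub_zero, abs_of_pos (by positivity)]; linarith)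
  have h7 : F (u₀ + (-(ε / 2)) • v) = 0 := h5 (by
    rw [Real.dist_eq, sub_zero, abs_neg, abs_of_pos (by positivity)]; linarith)
  rw [hq, e0] at h6 h7
  have hb : b = 0 := by
    have : ε * b = 0 := by linarith
    exact (mul_eq_zero.mp this).resolve_left hε.ne'
  have hc : c = 0 := by
    rw [hb] at h6
    have h8 : (ε / 2) ^ 2 * c = 0 := by linarith
    exact (mul_eq_zero.mp h8).resolve_left (by positivity)
  exact hbc hb hc

theorem thin_norm {A : E n →L[ℝ] E n} (hA : ∀ u v, omega (A u) (A v) = omega u v) {s : ℝ}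
    (hs : 0 < s) (hs1 : s < 1) : Thin fun u => s * ‖A u‖ - ‖u‖ := by
  refine ⟨by fun_prop, fun u₀ h0 η hη => ?_⟩
  by_contra hcon
  push Not at hcon
  have h1 : ∀ v : E n, s ^ 2 * ‖A v‖ ^ 2 - ‖v‖ ^ 2 = 0 := by
    refine quad_zero (F := fun v => s ^ 2 * ‖A v‖ ^ 2 - ‖v‖ ^ 2) ?_ ?_ h0 hη ?_
    · intro c v hv
      rw [map_smul, norm_smul, norm_smul, mul_pow, mul_pow]
      linear_combination ‖c‖ ^ 2 * hv
    · intro u v
      refine ⟨2 * (s ^ 2 * ⟪A u, A v⟫ - ⟪u, v⟫), s ^ 2 * ‖A v‖ ^ 2 - ‖v‖ ^ 2, fun t => ?_,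
        fun _ h => h⟩
      rw [map_add, map_smul, norm_add_sq_real, norm_add_sq_real, norm_smul, norm_smul,
        inner_smul_right, inner_smul_right, mul_pow, mul_pow, Real.norm_eq_abs, sq_abs]
      ring
    · intro u hu hd
      have h2 := hcon u hu hd
      have h3 : s * ‖A u‖ = ‖u‖ := by linarith
      rw [← mul_pow, h3]; ring
  have h2 : ∀ v : E n, ‖v‖ = s * ‖A v‖ := by
    intro v
    have h3 : ‖v‖ ^ 2 = (s * ‖A v‖) ^ 2 := by rw [mul_pow]; linarith [h1 v]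
    exact (pow_left_inj₀ (norm_nonneg _) (by positivity) two_ne_zero).mp h3
  obtain ⟨a, ha⟩ := surj hA u₀
  obtain ⟨b, hb⟩ := surj hA (J u₀)
  have h3 : omega a b = 1 := by
    rw [← hA, ha, hb, omega_self_J, h0]; norm_num
  have h4 := abs_omega_le a b
  rw [h3, h2 a, h2 b, ha, hb, norm_J, h0] at h4
  simp at h4
  nlinarith

theorem thin_inner {A : E n →L[ℝ] E n} (hA : ∀ u v, omega (A u) (A v) = omega u v) {q : E n}
    (hq : q ≠ 0) : Thin fun u => ⟪q, A u⟫ := by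
  refine ⟨by fun_prop, fun u₀ h0 η hη => ?_⟩
  by_contra hcon
  push Not at hcon
  have h1 : ∀ v : E n, ⟪q, A v⟫ = 0 := by
    refine quad_zero (F := fun v => ⟪q, A v⟫) ?_ ?_ h0 hη hcon
    · intro c v hv
      rw [map_smul, inner_smul_right, hv, mul_zero]
    · intro u v
      refine ⟨⟪q, A v⟫, 0, fun t => ?_, fun h _ => h⟩
      rw [map_add, map_smul, inner_add_right, inner_smul_right]
      ring
  obtain ⟨a, ha⟩ := surj hA q
  have h2 := h1 a
  rw [ha, real_inner_self_eq_norm_sq] at h2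
  exact hq (norm_eq_zero.mp (pow_eq_zero_iff two_ne_zero |>.mp h2))

end Pool.Agent.Y516.CP
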