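import Pool.Agent.Y516.CP.Cls

set_option autoImplicit false

open MeasureTheory Metric Set Filter Topology
open scoped ENNReal ContDiff RealInnerProductSpace

namespace Pool.Agent.Y516.CP

open Pool.Agent.Results.MP_cf1990_gt.EveryDim

variable {n : ℕ}

/-- rescaled profiles -/
noncomputable def pr (σ s : ℝ) (x : ℝ) : ℝ := σ * prof (s ^ 2 * x)

theorem continuous_pr (σ s : ℝ) : Continuous (pr σ s) := by
  unfold pr
  have := continuous_prof
  fun_prop

theorem tw_pr_smul (σ s : ℝ) (z : E n) : tw (pr σ 1) (s • z) = s • tw (pr σ s) z := by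
  unfold tw pr
  rw [rot_smul, norm_smul, mul_pow, Real.norm_eq_abs, sq_abs, one_pow, one_mul]

theorem neg_pr (σ s : ℝ) : (fun x => - pr σ s x) = pr (-σ) s := by
  ext x; unfold pr; ring

theorem tw_pr_der (σ : ℝ) {s : ℝ} (hs : 0 < s) (y : E n) :
    ∃ A : E n →L[ℝ] E n, HasFDerivAt (tw (pr σ s)) A y ∧ ∀ u v, omega (A u) (A v) = omega u v := by
  by_cases hy : y = 0
  · subst hy
    exact ⟨_, hasFDerivAt_tw_zero (continuous_pr σ s), fun u v => omega_dtw _ _ _ _ _⟩
  · have h1 : 0 < s ^ 2 * ‖y‖ ^ 2 := by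
      have := norm_pos_iff.mpr hy
      positivity
    have h2 : DifferentiableAt ℝ (pr σ s) (‖y‖ ^ 2) := by
      have h3 : DifferentiableAt ℝ (fun x : ℝ => s ^ 2 * x) (‖y‖ ^ 2) := by fun_prop
      have h4 := prof_differentiableAt h1
      have h5 : DifferentiableAt ℝ (fun x : ℝ => prof (s ^ 2 * x)) (‖y‖ ^ 2) :=
        DifferentiableAt.comp (𝕜 := ℝ) (g := prof) (f := fun x : ℝ => s ^ 2 * x) (‖y‖ ^ 2) h4 h3
      exact h5.const_mul σ
    exact ⟨_, hasFDerivAt_tw h2.hasDerivAt, fun u v => omega_dtw _ _ _ _ _⟩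

theorem tw_pr_smooth (σ : ℝ) {s : ℝ} (hs : 0 < s) {y : E n} (hy : y ≠ 0)
    (h : ∀ k, s * ‖y‖ ≠ rad k) : ContDiffAt ℝ 2 (tw (pr σ s)) y := by
  apply contDiffAt_tw
  have hy' := norm_pos_iff.mpr hy
  have h1 : 0 < s ^ 2 * ‖y‖ ^ 2 := by positivity
  have h2 : ContDiffAt ℝ 2 prof (s ^ 2 * ‖y‖ ^ 2) := by
    refine prof_contDiffAt h1 fun k hk => h k ?_
    rw [← mul_pow] at hk
    exact (pow_left_inj₀ (by positivity) (rad_pos k).le two_ne_zero).mp hk
  have h3 : ContDiffAt ℝ 2 (fun x : ℝ => s ^ 2 * x) (‖y‖ ^ 2) := by fun_prop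
  have h4 : ContDiffAt ℝ 2 (fun x : ℝ => prof (s ^ 2 * x)) (‖y‖ ^ 2) :=
    ContDiffAt.comp (g := prof) (‖y‖ ^ 2) h2 h3
  exact contDiffAt_const.mul h4

theorem eventually_rad {P : E n → Prop} (h : ∀ᶠ z in 𝓝 (0 : E n), P z) :
    ∃ k₀ : ℕ, ∀ k, k₀ ≤ k → ∀ u : E n, ‖u‖ = 1 → P (rad k • u) := by
  rw [Metric.eventually_nhds_iff] at h
  obtain ⟨r, hr, h1⟩ := h
  obtain ⟨k₀, hk₀⟩ := (rad_tendsto.eventually (gt_mem_nhds hr)).exists_forall_of_atTop
  refine ⟨k₀, fun k hk u hu => h1 ?_⟩
  rw [dist_zero_right, norm_smul, hu, mul_one, Real.norm_of_nonneg (rad_pos k).le]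
  exact hk₀ k hk

theorem isClosed_rads : IsClosed (insert (0 : ℝ) (Set.range rad)) :=
  rad_tendsto.isCompact_insert_range.isClosed

/-- the control of the new singular points -/
theorem ctrl_sing {χ : E n ≃ₜ E n} {A : E n →L[ℝ] E n} (hd : HasFDerivAt χ A 0)
    (hA : ∀ u v, omega (A u) (A v) = omega u v) {s : ℝ} (hs : 0 < s) (hs1 : s < 1) :
    ∃ Θ : E n → ℝ, Thin Θ ∧ Ctrl (fun z => χ z = 0 ∨ ∃ j, s * ‖χ z‖ = rad j) Θ := by
  set q := χ 0 with hq
  have hlo : ∀ c : ℝ, 0 < c → ∃ k₀ : ℕ, ∀ k, k₀ ≤ k → ∀ u : E n, ‖u‖ = 1 →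
      ‖χ (rad k • u) - q - rad k • A u‖ ≤ c * rad k := by
    intro c hc
    have h1 := hasFDerivAt_iff_isLittleO_nhds_zero.mp hd
    rw [Asymptotics.isLittleO_iff] at h1
    obtain ⟨k₀, hk₀⟩ := eventually_rad (h1 hc)
    refine ⟨k₀, fun k hk u hu => ?_⟩
    have h2 := hk₀ k hk u hu
    rw [zero_add, A.map_smul, norm_smul, hu, mul_one, Real.norm_of_nonneg (rad_pos k).le] at h2
    exact h2
  by_cases hq0 : q = 0
  · -- the fixed point case
    refine ⟨_, thin_norm hA hs hs1, fun δ hδ => ?_⟩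
    set m : ℝ := 1 / (‖A‖ + 1) with hm
    have hm0 : 0 < m := by positivity
    obtain ⟨k₁, h1⟩ := hlo (min (m / 2) (δ / 2)) (by positivity)
    obtain ⟨k₂, h2⟩ := rad_comp (m := s * (m / 2)) (M := s * (‖A‖ + 1)) (by positivity)
      (by positivity)
    refine ⟨max k₁ k₂, fun k hk u hu hP => ?_⟩
    have h3 := h1 k ((le_max_left _ _).trans hk) u hu
    rw [hq0, sub_zero] at h3
    have hr := rad_pos k
    have h4 : |‖χ (rad k • u)‖ - rad k * ‖A u‖| ≤ min (m / 2) (δ / 2) * rad k := by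
      have h5 := abs_norm_sub_norm_le (χ (rad k • u)) (rad k • A u)
      rw [norm_smul, Real.norm_of_nonneg hr.le] at h5
      exact h5.trans h3
    have h5 : m ≤ ‖A u‖ := lower_bound hA hu
    have h6 : ‖A u‖ ≤ ‖A‖ := by
      have := A.le_opNorm u
      rwa [hu, mul_one] at this
    have h7 := abs_le.mp h4
    have h8 : min (m / 2) (δ / 2) * rad k ≤ m / 2 * rad k := by
      gcongr; exact min_le_left _ _
    have h9 : min (m / 2) (δ / 2) * rad k ≤ δ / 2 * rad k := by
      gcongr; exact min_le_right _ _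
    have h10 : m / 2 * rad k ≤ ‖χ (rad k • u)‖ := by nlinarith
    have h11 : ‖χ (rad k • u)‖ ≤ (‖A‖ + 1) * rad k := by
      have hm1 : m ≤ 1 := by
        rw [hm, div_le_one (by positivity)]
        have := norm_nonneg A
        linarith
      nlinarith
    rcases hP with hP | ⟨j, hj⟩
    · exfalso
      rw [hP, norm_zero] at h10
      have : 0 < m / 2 * rad k := by positivity
      linarith
    · have h12 : j = k := by
        refine h2 k ((le_max_right _ _).trans hk) j ?_ ?_
        · rw [← hj, mul_assoc]; gcongr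
        · rw [← hj, mul_assoc]; gcongr
      subst h12
      have h13 : |s * ‖A u‖ - 1| * rad j ≤ δ / 2 * rad j := by
        have h14 : (s * ‖A u‖ - 1) * rad j = s * (rad j * ‖A u‖ - ‖χ (rad j • u)‖) := by
          rw [mul_sub, hj]; ring
        have h15 : |(s * ‖A u‖ - 1) * rad j| = |s * ‖A u‖ - 1| * rad j := by
          rw [abs_mul, abs_of_pos hr]
        rw [← h15, h14, abs_mul, abs_of_pos hs, abs_sub_comm]
        have h16 : s * |‖χ (rad j • u)‖ - rad j * ‖A u‖| ≤ 1 * |‖χ (rad j • u)‖ - rad j * ‖A u‖| := by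
          gcongr
        rw [one_mul] at h16
        exact h16.trans (h4.trans h9)
      have h14 := le_of_mul_le_mul_right h13 hr
      rw [hu]
      linarith
  · by_cases hK : s * ‖q‖ ∈ Set.range rad
    · -- on a singular sphere
      obtain ⟨j₀, hj₀⟩ := hK
      refine ⟨_, thin_inner hA hq0, fun δ hδ => ?_⟩
      have hqn : 0 < ‖q‖ := norm_pos_iff.mpr hq0
      set M : ℝ := ‖A‖ + 1 with hM
      have hM0 : 0 < M := by positivity
      obtain ⟨k₁, h1⟩ := hlo (min 1 (δ / (4 * ‖q‖))) (by positivity)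
      have e1 : ∀ᶠ z in 𝓝 (0 : E n), s * ‖χ z‖ ∈ Ioo (rad j₀ / 2) (2 * rad j₀) := by
        have hc : Continuous fun z : E n => s * ‖χ z‖ := by
          have := χ.continuous
          fun_prop
        have ht := hc.tendsto 0
        rw [← hq, ← hj₀] at ht
        have hr := rad_pos j₀
        exact ht.eventually (Ioo_mem_nhds (by linarith) (by linarith))
      obtain ⟨k₂, h2⟩ := eventually_rad e1
      obtain ⟨k₃, h3⟩ := (rad_tendsto.eventually (gt_mem_nhds
        (show 0 < δ / M ^ 2 by positivity))).exists_forall_of_atTop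
      refine ⟨max k₁ (max k₂ k₃), fun k hk u hu hP => ?_⟩
      have g1 := h1 k ((le_max_left _ _).trans hk) u hu
      have g2 := h2 k (((le_max_left _ _).trans (le_max_right _ _)).trans hk) u hu
      have g3 := h3 k (((le_max_right _ _).trans (le_max_right _ _)).trans hk)
      have hr := rad_pos k
      have hr0 := rad_pos j₀
      have h4 : ‖χ (rad k • u)‖ = ‖q‖ := by
        rcases hP with hP | ⟨j, hj⟩
        · exfalso
          rw [hP, norm_zero, mul_zero] at g2
          linarith [g2.1]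
        · have h5 : j = j₀ := by
            rw [hj] at g2
            rcases lt_trichotomy j j₀ with h | h | h
            · have := rad_lt h; linarith [g2.2]
            · exact h
            · have := rad_lt h
              have := rad_pos j
              linarith [g2.1]
          rw [h5, hj₀] at hj
          exact mul_left_cancel₀ hs.ne' hj
      set r := χ (rad k • u) - q - rad k • A u with hrdef
      have h5 : χ (rad k • u) = q + (rad k • A u + r) := by rw [hrdef]; abel
      have h6 : ‖rad k • A u + r‖ ≤ M * rad k := by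
        refine (norm_add_le _ _).trans ?_
        rw [norm_smul, Real.norm_of_nonneg hr.le]
        have h7 : ‖A u‖ ≤ ‖A‖ := by
          have := A.le_opNorm u
          rwa [hu, mul_one] at this
        have h8 : ‖r‖ ≤ 1 * rad k := g1.trans (by gcongr; exact min_le_left _ _)
        have h9 : rad k * ‖A u‖ ≤ rad k * ‖A‖ := by gcongr
        have h10 : M * rad k = rad k * ‖A‖ + 1 * rad k := by rw [hM]; ring
        linarith
      have h7 : 2 * ⟪q, rad k • A u + r⟫ + ‖rad k • A u + r‖ ^ 2 = 0 := by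
        have h8 := norm_add_sq_real q (rad k • A u + r)
        rw [← h5, h4] at h8
        linarith
      have h8 : |⟪q, rad k • A u + r⟫| ≤ (M * rad k) ^ 2 / 2 := by
        have h9 : ⟪q, rad k • A u + r⟫ = - (‖rad k • A u + r‖ ^ 2 / 2) := by linarith
        rw [h9, abs_neg, abs_of_nonneg (by positivity)]
        gcongr
      have h9 : |⟪q, r⟫| ≤ δ / 4 * rad k := by
        refine (abs_real_inner_le_norm _ _).trans ?_
        have h10 : ‖r‖ ≤ δ / (4 * ‖q‖) * rad k := g1.trans (by gcongr; exact min_le_right _ _)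
        calc ‖q‖ * ‖r‖ ≤ ‖q‖ * (δ / (4 * ‖q‖) * rad k) := by gcongr
          _ = δ / 4 * rad k := by field_simp
      have h10 : rad k * ⟪q, A u⟫ = ⟪q, rad k • A u + r⟫ - ⟪q, r⟫ := by
        rw [inner_add_right, inner_smul_right]; ring
      have h11 : rad k * |⟪q, A u⟫| ≤ (M * rad k) ^ 2 / 2 + δ / 4 * rad k := by
        have h12 : rad k * |⟪q, A u⟫| = |rad k * ⟪q, A u⟫| := by
          rw [abs_mul, abs_of_pos hr]
        rw [h12, h10]
        exact (abs_sub _ _).trans (add_le_add h8 h9)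
      have h12 : (M * rad k) ^ 2 / 2 ≤ δ / 2 * rad k := by
        have h13 : M ^ 2 * rad k ≤ δ := by
          have := g3.le
          rw [le_div_iff₀ (by positivity)] at this
          linarith
        nlinarith
      have h13 : rad k * |⟪q, A u⟫| ≤ rad k * (3 / 4 * δ) := by nlinarith
      have h14 := le_of_mul_le_mul_left h13 hr
      linarith
    · -- away from the singular spheres
      refine ⟨fun _ => 1, thin_one, fun δ _ => ?_⟩
      have h1 : s * ‖q‖ ∉ insert (0 : ℝ) (Set.range rad) := by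
        rw [Set.mem_insert_iff, not_or]
        refine ⟨?_, hK⟩
        have hqn : 0 < ‖q‖ := norm_pos_iff.mpr hq0
        positivity
      have h2 : ∀ᶠ z in 𝓝 (0 : E n), s * ‖χ z‖ ∈ (insert (0 : ℝ) (Set.range rad))ᶜ := by
        have hc : Continuous fun z : E n => s * ‖χ z‖ := by
          have := χ.continuous
          fun_prop
        exact (hc.tendsto 0).eventually (isClosed_rads.isOpen_compl.mem_nhds h1)
      obtain ⟨k₀, h3⟩ := eventually_rad h2
      refine ⟨k₀, fun k hk u hu hP => absurd ?_ (h3 k hk u hu)⟩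
      rcases hP with hP | ⟨j, hj⟩
      · rw [hP]; simp
      · exact Set.mem_insert_iff.mpr (Or.inr ⟨j, hj.symm⟩)

/-- the class is stable under small twists -/
theorem Cls.twist {χ : E n ≃ₜ E n} (h : Cls χ) (σ : ℝ) {s : ℝ} (hs : 0 < s) (hs1 : s < 1) :
    Cls (χ.trans (twH (pr σ s) (continuous_pr σ s))) := by
  refine h.comp (lim_tw (continuous_pr σ s)) ?_ (fun x => tw_pr_der σ hs x) ?_
  · have : ((twH (pr σ s) (continuous_pr σ s)).symm : E n → E n) = tw (pr (-σ) s) := by
      rw [← neg_pr]; rfl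
    rw [this]
    exact lim_tw (continuous_pr _ _)
  · obtain ⟨A, hd, hA⟩ := h.der 0
    obtain ⟨Θ, t, hΘ⟩ := ctrl_sing hd hA hs hs1
    refine ⟨Θ, t, hΘ.mono fun z hz => ?_⟩
    by_contra hcon
    push Not at hcon
    exact hz (tw_pr_smooth σ hs hcon.1 hcon.2)

end Pool.Agent.Y516.CP
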