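import Pool.Agent.Y516.CP.Kink

set_option autoImplicit false

open MeasureTheory Metric Set Filter Topology
open scoped ENNReal ContDiff RealInnerProductSpace

namespace Pool.Agent.Y516.CP

open Pool.Agent.Results.MP_cf1990_gt.EveryDim

variable {n : ℕ}

theorem seg_closed (d : E n) (a b : ℝ) : IsClosed ((fun t : ℝ => t • d) '' Icc a b) :=
  (isCompact_Icc.image (by fun_prop)).isClosed

theorem spk_closed (D : ℕ → E n) (k : ℕ) (a b : ℝ) : IsClosed (Spk D k a b) := by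
  have h1 : Spk D k a b = ⋃ i ∈ Finset.range (k + 1), (fun t : ℝ => t • D i) '' Icc a b := by
    ext z
    simp only [Spk, mem_ofPred_eq, mem_iUnion, Finset.mem_range, mem_image, mem_Icc,
      exists_prop]
    constructor
    · rintro ⟨i, hi, t, h1, h2, rfl⟩
      exact ⟨i, by omega, t, ⟨h1, h2⟩, rfl⟩
    · rintro ⟨i, hi, t, ⟨h1, h2⟩, rfl⟩
      exact ⟨i, by omega, t, h1, h2, rfl⟩
  rw [h1]
  exact isClosed_biUnion_finset fun i _ => seg_closed _ _ _

section
variable {D : ℕ → E n} {G : E n ≃ₜ E n}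

/-- crossing points go to crossing points -/
theorem crossing (hD : ∀ i, ‖D i‖ = 1) (hG : ∀ z ∈ V D, G z ∈ V D)
    (hS : ∀ j z, ‖z‖ = rad j ↔ ‖G z‖ = rad j) {i j : ℕ} (hij : i ≤ j) :
    ∃ i', i' ≤ j ∧ G.symm (rad j • D i) = rad j • D i' := by
  have hr := rad_pos j
  have hnorm : ‖G.symm (rad j • D i)‖ = rad j := by
    rw [hS, G.apply_symm_apply, norm_smul, hD, mul_one, Real.norm_of_nonneg hr.le]
  have h1 : G.symm (rad j • D i) ∈ Spk D j (rad j / 2) (3 / 2 * rad j) := by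
    have hc : Continuous fun t : ℝ => G.symm (t • D i) := by
      have := G.symm.continuous
      fun_prop
    have ht : Tendsto (fun t : ℝ => G.symm (t • D i)) (𝓝[≠] (rad j)) (𝓝 (G.symm (rad j • D i))) :=
      (hc.tendsto _).mono_left nhdsWithin_le_nhds
    refine (spk_closed D j (rad j / 2) (3 / 2 * rad j)).mem_of_tendsto ht ?_
    have e1 : ∀ᶠ t in 𝓝[≠] (rad j), t ∈ Ioo (rad j / 2) (3 / 2 * rad j) :=
      (Ioo_mem_nhds (by linarith) (by linarith) : Ioo (rad j / 2) (3 / 2 * rad j) ∈ 𝓝 (rad j))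
        |> fun h => nhdsWithin_le_nhds h
    filter_upwards [e1, self_mem_nhdsWithin] with t g1 g2
    have g3 := spoke_curve hD hG hS hij g1.1.le g1.2.le
    rcases g3 with g3 | g3
    · exfalso
      rw [mem_sphere_zero_iff_norm, hS, G.apply_symm_apply, norm_smul, hD, mul_one,
        Real.norm_of_nonneg (by linarith [g1.1])] at g3
      exact g2 g3
    · exact g3
  obtain ⟨i', hi', t, h2, h3, h4⟩ := h1
  refine ⟨i', hi', ?_⟩
  rw [h4] at hnorm ⊢
  rw [norm_smul, hD, mul_one, Real.norm_of_nonneg (by linarith)] at hnorm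
  rw [hnorm]

theorem crossing_surj (hD : ∀ i, ‖D i‖ = 1) (hG : ∀ z ∈ V D, G z ∈ V D)
    (hS : ∀ j z, ‖z‖ = rad j ↔ ‖G z‖ = rad j) {i' j : ℕ} (hij : i' ≤ j) :
    ∃ i, i ≤ j ∧ G.symm (rad j • D i) = rad j • D i' := by
  set P : Set (E n) := (fun i => rad j • D i) '' (Iic j) with hP
  have hfin : P.Finite := (finite_Iic j).image _
  have hsub : G.symm '' P ⊆ P := by
    rintro _ ⟨_, ⟨i, hi, rfl⟩, rfl⟩
    obtain ⟨m, hm, h⟩ := crossing hD hG hS hi
    exact ⟨m, hm, h.symm⟩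
  have heq : G.symm '' P = P := by
    refine Set.eq_of_subset_of_ncard_le hsub ?_ hfin
    rw [Set.ncard_image_of_injective _ G.symm.injective]
  have hmem : rad j • D i' ∈ G.symm '' P := by
    rw [heq]; exact ⟨i', hij, rfl⟩
  obtain ⟨_, ⟨i, hi, rfl⟩, h⟩ := hmem
  exact ⟨i, hi, h⟩

theorem crossing_curve (hD : ∀ i, ‖D i‖ = 1) (hG : ∀ z ∈ V D, G z ∈ V D)
    (hS : ∀ j z, ‖z‖ = rad j ↔ ‖G z‖ = rad j) {i i' j : ℕ} (hij : i ≤ j)
    (h : G.symm (rad j • D i) = rad j • D i') :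
    ∀ᶠ t in 𝓝 (rad j), G.symm (t • D i) = ‖G.symm (t • D i)‖ • D i' := by
  have hr := rad_pos j
  set W : Set (E n) := ⋃ m ∈ (Finset.range (j + 1)).filter (fun m => D m ≠ D i'),
    (fun t : ℝ => t • D m) '' Icc (rad j / 2) (3 / 2 * rad j) with hW
  have hWc : IsClosed W := isClosed_biUnion_finset fun m _ => seg_closed _ _ _
  have hnot : rad j • D i' ∉ W := by
    intro hmem
    simp only [hW, mem_iUnion, Finset.mem_filter, Finset.mem_range, mem_image, mem_Icc,
      exists_prop] at hmem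
    obtain ⟨m, ⟨-, hm⟩, t, ⟨h1, h2⟩, h3⟩ := hmem
    have h4 := congrArg norm h3
    rw [norm_smul, norm_smul, hD, hD, mul_one, mul_one, Real.norm_of_nonneg hr.le,
      Real.norm_of_nonneg (by linarith)] at h4
    rw [h4] at h3
    exact hm (smul_right_injective _ hr.ne' h3)
  have hc : Continuous fun t : ℝ => G.symm (t • D i) := by
    have := G.symm.continuous
    fun_prop
  have ht := hc.tendsto (rad j)
  rw [h] at ht
  have e1 : ∀ᶠ t in 𝓝 (rad j), G.symm (t • D i) ∈ Wᶜ :=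
    ht.eventually (hWc.isOpen_compl.mem_nhds hnot)
  have e2 : ∀ᶠ t in 𝓝 (rad j), t ∈ Ioo (rad j / 2) (3 / 2 * rad j) :=
    Ioo_mem_nhds (by linarith) (by linarith)
  filter_upwards [e1, e2] with t g1 g2
  by_cases hte : t = rad j
  · rw [hte, h, norm_smul, hD, mul_one, Real.norm_of_nonneg hr.le]
  · rcases spoke_curve hD hG hS hij g2.1.le g2.2.le with g3 | ⟨m, hm, τ, h1, h2, h3⟩
    · exfalso
      rw [mem_sphere_zero_iff_norm, hS, G.apply_symm_apply, norm_smul, hD, mul_one,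
        Real.norm_of_nonneg (by linarith [g2.1])] at g3
      exact hte g3
    · have h4 : D m = D i' := by
        by_contra hne
        apply g1
        simp only [hW, mem_iUnion, Finset.mem_filter, Finset.mem_range, mem_image, mem_Icc,
          exists_prop]
        exact ⟨m, ⟨by omega, hne⟩, τ, ⟨h1, h2⟩, h3.symm⟩
      rw [h3, norm_smul, hD, mul_one, Real.norm_of_nonneg (by linarith), h4]

/-- the final contradiction -/
theorem no_fit (hn : 0 < n) (hD : ∀ i, ‖D i‖ = 1)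
    (hdense : ∀ u₀ : E n, ‖u₀‖ = 1 → ∀ η : ℝ, 0 < η → ∃ i, dist (D i) u₀ < η)
    (hG : ∀ z ∈ V D, G z ∈ V D) (hS : ∀ j z, ‖z‖ = rad j ↔ ‖G z‖ = rad j) {χ : E n ≃ₜ E n}
    (hχ : ∀ z, χ z = tw prof (G z)) (hC : Cls χ) : False := by
  have key : ∀ j i', i' ≤ j → ¬ ContDiffAt ℝ 2 χ (rad j • D i') := by
    intro j i' hij
    obtain ⟨i, hi, h⟩ := crossing_surj hD hG hS hij
    obtain ⟨A, hA, hA'⟩ := hC.der (rad j • D i')
    refine kink hχ (hD i) (hD i') ?_ (crossing_curve hD hG hS hi h) hA hA'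
    rw [← h, G.apply_symm_apply]
  obtain ⟨Θ, hT, hct⟩ := hC.ctrl
  obtain ⟨v, hv⟩ : ∃ u : E n, ‖u‖ = 1 := ⟨EuclideanSpace.single (⟨0, hn⟩, 0) 1, by simp⟩
  obtain ⟨u₀, h0, -, hΘ⟩ := hT.2 v hv 1 one_pos
  have hpos : 0 < |Θ u₀| := abs_pos.mpr hΘ
  have h1 : ∀ᶠ w in 𝓝 u₀, |Θ u₀| / 2 < |Θ w| := by
    have : Continuous fun w => |Θ w| := hT.1.abs
    exact this.continuousAt.eventually (lt_mem_nhds (by linarith))
  rw [Metric.eventually_nhds_iff] at h1
  obtain ⟨η, hη, h2⟩ := h1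
  obtain ⟨i, hi⟩ := hdense u₀ h0 η hη
  obtain ⟨k₀, h3⟩ := hct (|Θ u₀| / 2) (by positivity)
  have h4 := h3 (max k₀ i) (le_max_left _ _) (D i) (hD i) (key _ i (le_max_right _ _))
  have h5 := h2 hi
  linarith

end

/-! ### the capacity -/

/-- the test part of the capacity -/
noncomputable def T (D : ℕ → E n) (A : Set (E n)) : ℝ≥0∞ :=
  ⨆ (s : ℝ) (χ : E n ≃ₜ E n) (_ : 0 < s ∧ Cls χ ∧ ∀ z ∈ V D, s • χ z ∈ A),
    ENNReal.ofReal (Real.pi * s ^ 2)

theorem le_T {D : ℕ → E n} {A : Set (E n)} {s : ℝ} (hs : 0 < s) {χ : E n ≃ₜ E n} (hχ : Cls χ)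
    (h : ∀ z ∈ V D, s • χ z ∈ A) : ENNReal.ofReal (Real.pi * s ^ 2) ≤ T D A :=
  le_iSup_of_le s (le_iSup₂_of_le χ ⟨hs, hχ, h⟩ le_rfl)

theorem T_le {D : ℕ → E n} {A : Set (E n)} {C : ℝ≥0∞} (h : ∀ s : ℝ, 0 < s → ∀ χ : E n ≃ₜ E n,
    Cls χ → (∀ z ∈ V D, s • χ z ∈ A) → ENNReal.ofReal (Real.pi * s ^ 2) ≤ C) : T D A ≤ C :=
  iSup_le fun s => iSup₂_le fun χ hc => h s hc.1 χ hc.2.1 hc.2.2

/-- the capacity -/
noncomputable def cp (D : ℕ → E n) (A : Set (E n)) : ℝ≥0∞ := max (width A) (T D A)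

/-- a homothety of a homeomorphism -/
noncomputable def scH (s : ℝ) (hs : 0 < s) (χ : E n ≃ₜ E n) : E n ≃ₜ E n :=
  χ.trans (Homeomorph.smulOfNeZero s hs.ne')

theorem scH_apply {s : ℝ} (hs : 0 < s) (χ : E n ≃ₜ E n) (z : E n) : scH s hs χ z = s • χ z := rfl

theorem sc_scH {s : ℝ} (hs : 0 < s) {χ : E n ≃ₜ E n} (h : Lim χ) (h' : Lim χ.symm) :
    Sc s (scH s hs χ) := ⟨hs, χ, h, h', fun _ => rfl⟩

theorem mem_of_closure (hn : 0 < n) {D : ℕ → E n} {G : E n → E n} (hG : Continuous G)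
    {A : Set (E n)} (hA : IsClosed A) (h : ∀ z ∈ V D, G z ∈ A) {z : E n} (hz : ‖z‖ ≤ 1) :
    G z ∈ A := by
  have h1 : closure (V D) ⊆ G ⁻¹' A := closure_minimal h (hA.preimage hG)
  exact h1 (V_dense hn (by simpa using hz))

theorem T_ball (hn : 0 < n) (D : ℕ → E n) {r : ℝ} (hr : 0 < r) (x : E n) :
    ∀ s : ℝ, ∀ hs : 0 < s, ∀ χ : E n ≃ₜ E n, Lim χ → Lim χ.symm →
      (∀ z ∈ V D, s • χ z ∈ closedBall x r) → s ≤ r := by
  intro s hs χ h1 h2 h3
  have h4 := (sc_scH hs h1 h2).le_ball hn zero_le_one hr.le (x := x) (fun z hz =>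
    mem_of_closure hn (scH s hs χ).continuous isClosed_closedBall h3 hz)
  linarith

theorem T_cyl (hn : 0 < n) (hNS : NS hn) (D : ℕ → E n) {r : ℝ} (hr : 0 < r) :
    T D (cyl hn r) ≤ ENNReal.ofReal (Real.pi * r ^ 2) := by
  refine T_le fun s hs χ hχ h => ?_
  have h1 : s ≤ r := by
    refine (hχ.lim.conj hs.ne').le_cyl hn hNS hs.le hr fun z hz => ?_
    refine mem_of_closure hn (G := fun z => s • χ z) (by
      have := χ.continuous; fun_prop) (cyl_closed hn r) h ?_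
    rw [norm_smul, norm_inv, Real.norm_of_nonneg hs.le, inv_mul_le_iff₀ hs]
    linarith
  apply ENNReal.ofReal_le_ofReal
  have := Real.pi_pos
  gcongr

theorem T_mono {D : ℕ → E n} {A B : Set (E n)} (h : ∃ ψ : E n ≃ E n, IsSymplecto ψ ∧ ψ '' A ⊆ B) :
    T D A ≤ T D B := by
  obtain ⟨ψ, hψ, hAB⟩ := h
  refine T_le fun s hs χ hχ h => ?_
  refine le_T hs (hχ.symplecto (hψ.conj (inv_ne_zero hs.ne'))) fun z hz => ?_
  have h1 : s • ((χ.trans (symH _ (hψ.conj (inv_ne_zero hs.ne')))) z) = ψ (s • χ z) := by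
    show s • (s⁻¹ • ψ ((s⁻¹)⁻¹ • χ z)) = _
    rw [smul_smul, mul_inv_cancel₀ hs.ne', one_smul, inv_inv]
  rw [h1]
  exact hAB ⟨_, h z hz, rfl⟩

theorem negE_apply (z : E n) : (twE (fun _ => Real.pi) : E n ≃ E n) z = - z := by
  show rot Real.pi z = - z
  simp [rot]

theorem T_conf_le {D : ℕ → E n} (l : ℝ) (hl : l ≠ 0) (A : Set (E n)) :
    ENNReal.ofReal (l ^ 2) * T D A ≤ T D ((fun z => l • z) '' A) := by
  have hl' : 0 < |l| := abs_pos.mpr hl
  rw [T, ENNReal.mul_iSup]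
  refine iSup_le fun s => ?_
  rw [ENNReal.mul_iSup]
  refine iSup_le fun χ => ?_
  rw [ENNReal.mul_iSup]
  refine iSup_le fun ⟨hs, hχ, h⟩ => ?_
  have h2 : ENNReal.ofReal (l ^ 2) * ENNReal.ofReal (Real.pi * s ^ 2) =
      ENNReal.ofReal (Real.pi * (|l| * s) ^ 2) := by
    rw [← ENNReal.ofReal_mul (by positivity), mul_pow, sq_abs]
    congr 1; ring
  rw [h2]
  rcases lt_or_gt_of_ne hl with h3 | h3
  · refine le_T (by positivity) (hχ.symplecto (isSymplecto_tw (contDiff_const (c := Real.pi))))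
      fun z hz => ⟨s • χ z, h z hz, ?_⟩
    show l • s • χ z = (|l| * s) • ((twE (fun _ => Real.pi) : E n ≃ E n) (χ z))
    rw [negE_apply, abs_of_neg h3]
    module
  · refine le_T (by positivity) hχ fun z hz => ⟨s • χ z, h z hz, ?_⟩
    show l • s • χ z = (|l| * s) • χ z
    rw [abs_of_pos h3]
    module

theorem T_conf {D : ℕ → E n} (s : ℝ) (hs : s ≠ 0) (A : Set (E n)) :
    T D ((fun z => s • z) '' A) = ENNReal.ofReal (s ^ 2) * T D A := by
  refine le_antisymm ?_ (T_conf_le s hs A)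
  have h1 := T_conf_le (D := D) s⁻¹ (inv_ne_zero hs) ((fun z => s • z) '' A)
  have h2 : (fun z : E n => s⁻¹ • z) '' ((fun z => s • z) '' A) = A := by
    rw [← image_comp]
    convert image_id A
    ext z
    simp [hs]
  rw [h2] at h1
  calc T D ((fun z => s • z) '' A)
      = ENNReal.ofReal (s ^ 2) * (ENNReal.ofReal (s⁻¹ ^ 2) * T D ((fun z => s • z) '' A)) := by
        rw [← mul_assoc, ← ENNReal.ofReal_mul (by positivity), ← mul_pow, mul_inv_cancel₀ hs]
        simp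
    _ ≤ _ := by gcongr

theorem cp_normalised (hn : 0 < n) (hNS : NS hn) (D : ℕ → E n) :
    IsNormalisedCapacity hn (cp D) := by
  have key : ∀ r : ℝ, 0 < r → width (cyl hn r) ≤ ENNReal.ofReal (Real.pi * r ^ 2) := by
    intro r hr
    refine width_le fun ρ h0 ψ hψ h1 => ?_
    have := hNS ρ r h0 hr ψ hψ h1
    apply ENNReal.ofReal_le_ofReal
    have := Real.pi_pos
    gcongr
  have key2 : ∀ r : ℝ, 0 < r → ENNReal.ofReal (Real.pi * r ^ 2) ≤ width (closedBall (0 : E n) r) := by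
    intro r hr
    exact le_width hr.le IsSymplecto.refl (by simp)
  have key3 : ∀ r : ℝ, 0 < r → width (closedBall (0 : E n) r) ≤ width (cyl hn r) := by
    intro r hr
    exact width_mono ⟨Equiv.refl _, IsSymplecto.refl, by simpa using ball_subset_cyl hn hr.le⟩
  have key4 : ∀ r : ℝ, 0 < r → T D (closedBall (0 : E n) r) ≤ T D (cyl hn r) := by
    intro r hr
    exact T_mono ⟨Equiv.refl _, IsSymplecto.refl, by simpa using ball_subset_cyl hn hr.le⟩
  refine ⟨?_, ?_, ?_, ?_⟩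
  · intro A B h
    exact max_le_max (width_mono h) (T_mono h)
  · intro s A hs
    unfold cp
    rw [width_conf s hs, T_conf s hs, mul_max_of_nonneg _ _ (by positivity)]
  · intro r hr
    refine le_antisymm (max_le ?_ ?_) ((key2 r hr).trans (le_max_left _ _))
    · exact (key3 r hr).trans (key r hr)
    · exact (key4 r hr).trans (T_cyl hn hNS D hr)
  · intro r hr
    refine le_antisymm (max_le (key r hr) (T_cyl hn hNS D hr)) ?_
    exact ((key2 r hr).trans (key3 r hr)).trans (le_max_left _ _)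

/-! ### the homeomorphism -/

theorem pr_one_one : pr 1 1 = prof := by
  ext x; simp [pr]

/-- the homeomorphism of the theorem -/
noncomputable def phi : E n ≃ₜ E n := twH (pr 1 1) (continuous_pr 1 1)

theorem phi_smul (s : ℝ) (z : E n) : (phi : E n ≃ₜ E n) (s • z) = s • tw (pr 1 s) z :=
  tw_pr_smul 1 s z

theorem phi_symm (z : E n) : (phi : E n ≃ₜ E n).symm z = tw (pr (-1) 1) z := by
  rw [← neg_pr]; rfl

theorem phi_symm_smul (s : ℝ) (z : E n) :
    (phi : E n ≃ₜ E n).symm (s • z) = s • tw (pr (-1) s) z := by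
  rw [phi_symm, tw_pr_smul]

theorem lim_phi : Lim (phi : E n ≃ₜ E n) := lim_tw (continuous_pr 1 1)

theorem lim_phi_symm : Lim (phi : E n ≃ₜ E n).symm := by
  have : ((phi : E n ≃ₜ E n).symm : E n → E n) = tw (pr (-1) 1) := by
    ext1 z; exact phi_symm z
  rw [this]; exact lim_tw (continuous_pr _ _)

theorem lim_tw_symm {h : ℝ → ℝ} (hh : Continuous h) : Lim (twH h hh : E n ≃ₜ E n).symm := by
  have : ((twH h hh : E n ≃ₜ E n).symm : E n → E n) = tw fun x => - h x := rfl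
  rw [this]; exact lim_tw (by fun_prop)

theorem cp_small (hn : 0 < n) (D : ℕ → E n) {x : E n} {R : ℝ} (hR0 : 0 < R) (hR : R < 1)
    {O : Set (E n)} (hO : IsOpen O) (hOR : O ⊆ closedBall x R) :
    cp D ((phi : E n ≃ₜ E n) '' O) = cp D O := by
  have e1 : width ((phi : E n ≃ₜ E n) '' O) = width O := by
    refine le_antisymm ?_ (width_le_image lim_phi hO)
    have h1 := width_le_image (φ := (phi : E n ≃ₜ E n).symm) lim_phi_symm
      ((phi : E n ≃ₜ E n).isOpenMap O hO)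
    have h2 : (phi : E n ≃ₜ E n).symm '' ((phi : E n ≃ₜ E n) '' O) = O := by
      rw [← image_comp]; simp
    rwa [h2] at h1
  have e2 : T D ((phi : E n ≃ₜ E n) '' O) = T D O := by
    apply le_antisymm
    · refine T_le fun s hs χ hχ h => ?_
      have h1 : ∀ z ∈ V D, s • (χ.trans (twH (pr (-1) s) (continuous_pr (-1) s))) z ∈ O := by
        intro z hz
        obtain ⟨w, hw, hw2⟩ := h z hz
        have h2 : s • (χ.trans (twH (pr (-1) s) (continuous_pr (-1) s))) z =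
            (phi : E n ≃ₜ E n).symm (s • χ z) := (phi_symm_smul s (χ z)).symm
        rw [h2, ← hw2, Homeomorph.symm_apply_apply]
        exact hw
      have hs1 : s < 1 := by
        refine lt_of_le_of_lt (T_ball hn D hR0 x s hs
          (χ.trans (twH (pr (-1) s) (continuous_pr (-1) s))) ?_ ?_ fun z hz => hOR (h1 z hz)) hR
        · exact (lim_tw (continuous_pr (-1) s)).comp hχ.lim (continuous_tw (continuous_pr _ _))
            χ.continuous
        · exact hχ.lim'.comp (lim_tw_symm (continuous_pr (-1) s)) χ.symm.continuous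
            (twH (pr (-1) s) (continuous_pr (-1) s)).symm.continuous
      exact le_T hs (hχ.twist (-1) hs hs1) h1
    · refine T_le fun s hs χ hχ h => ?_
      have hs1 : s < 1 :=
        lt_of_le_of_lt (T_ball hn D hR0 x s hs χ hχ.lim hχ.lim' fun z hz => hOR (h z hz)) hR
      refine le_T hs (hχ.twist 1 hs hs1) fun z hz => ⟨s • χ z, h z hz, ?_⟩
      exact phi_smul s (χ z)
  unfold cp
  rw [e1, e2]

/-- the constant -/
theorem exists_tau (hn : 0 < n) : ∃ τ : ℝ, 0 < τ ∧ τ < 1 ∧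
    ∀ s : ℝ, 0 ≤ s → s ^ (2 * n) ≤ 1 - (1 / 2) ^ (2 * n) → s ^ 2 ≤ τ := by
  have h1 := half_pow_le hn
  have h2 : (0 : ℝ) < (1 / 2) ^ (2 * n) := by positivity
  set κ : ℝ := 1 - (1 / 2) ^ (2 * n) with hκ
  have hκ0 : 0 < κ := by linarith
  have hκ1 : κ < 1 := by linarith
  refine ⟨κ ^ ((n : ℝ)⁻¹), by positivity, ?_, fun s hs h => ?_⟩
  · exact Real.rpow_lt_one hκ0.le hκ1 (by positivity)
  · have h3 : (κ ^ ((n : ℝ)⁻¹)) ^ n = κ := Real.rpow_inv_natCast_pow hκ0.le hn.ne'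
    have h4 : (s ^ 2) ^ n ≤ (κ ^ ((n : ℝ)⁻¹)) ^ n := by
      rw [h3, ← pow_mul]; exact h
    exact (pow_le_pow_iff_left₀ (by positivity) (by positivity) hn.ne').mp h4

theorem cp_large (hn : 0 < n) {D : ℕ → E n} (hD : ∀ i, ‖D i‖ = 1)
    (hdense : ∀ u₀ : E n, ‖u₀‖ = 1 → ∀ η : ℝ, 0 < η → ∃ i, dist (D i) u₀ < η) :
    cp D ((phi : E n ≃ₜ E n) '' V D) < cp D (V D) := by
  obtain ⟨τ, hτ0, hτ1, hτ⟩ := exists_tau hn
  have hpi := Real.pi_pos
  have h1 : ENNReal.ofReal Real.pi ≤ cp D (V D) := by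
    have h2 := le_T (D := D) (A := V D) one_pos cls_refl (fun z hz => by simpa using hz)
    simp only [one_pow, mul_one] at h2
    exact h2.trans (le_max_right _ _)
  have h2 : cp D ((phi : E n ≃ₜ E n) '' V D) ≤ ENNReal.ofReal (Real.pi * τ) := by
    refine max_le ?_ ?_
    · refine width_le fun ρ h0 ψ hψ h => ?_
      apply ENNReal.ofReal_le_ofReal
      have h3 : ∀ z, ‖z‖ ≤ ρ → (phi : E n ≃ₜ E n).symm (ψ z) ∈ V D := by
        intro z hz
        obtain ⟨w, hw, hw2⟩ := h ⟨z, by simpa using hz, rfl⟩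
        rw [← hw2, Homeomorph.symm_apply_apply]; exact hw
      rcases h0.eq_or_lt with h4 | h4
      · rw [← h4]; norm_num; positivity
      · have h5 : ρ ^ (2 * n) ≤ 1 - (1 / 2) ^ (2 * n) := by
          refine (lim_phi_symm.comp (lim_of_symplecto hψ) (phi : E n ≃ₜ E n).symm.continuous
            hψ.1.continuous).le_split hn ((phi : E n ≃ₜ E n).symm.continuous.comp
            hψ.1.continuous) h4 (fun z hz => (h3 z hz).2.1.le) (fun z hz hz2 => ?_)
          refine (h3 z hz.le).2.2 0 (Or.inl ?_)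
          rw [mem_sphere_zero_iff_norm, rad_zero]; exact hz2
        have := hτ ρ h0 h5
        gcongr
    · refine T_le fun s hs χ hχ h => ?_
      apply ENNReal.ofReal_le_ofReal
      set χ' : E n ≃ₜ E n := χ.trans (twH (pr (-1) s) (continuous_pr (-1) s)) with hχ'
      set G : E n ≃ₜ E n := scH s hs χ' with hGdef
      have hGe : ∀ z, G z = (phi : E n ≃ₜ E n).symm (s • χ z) := fun z =>
        (phi_symm_smul s (χ z)).symm
      have hG : ∀ z ∈ V D, G z ∈ V D := by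
        intro z hz
        obtain ⟨w, hw, hw2⟩ := h z hz
        rw [hGe, ← hw2, Homeomorph.symm_apply_apply]
        exact hw
      have hsc : Sc s G := by
        refine sc_scH hs ?_ ?_
        · exact (lim_tw (continuous_pr (-1) s)).comp hχ.lim (continuous_tw (continuous_pr _ _))
            χ.continuous
        · exact hχ.lim'.comp (lim_tw_symm (continuous_pr (-1) s)) χ.symm.continuous
            (twH (pr (-1) s) (continuous_pr (-1) s)).symm.continuous
      rcases alternative hn hD hsc hG with h3 | ⟨h3, h4⟩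
      · have := hτ s hs.le h3
        gcongr
      · exfalso
        refine no_fit hn hD hdense hG h4 (χ := χ) (fun z => ?_) hχ
        have h5 : (phi : E n ≃ₜ E n) (G z) = χ z := by
          rw [hGe, Homeomorph.apply_symm_apply, h3, one_smul]
        rw [← h5, ← pr_one_one]
        rfl
  refine lt_of_le_of_lt h2 (lt_of_lt_of_le ?_ h1)
  rw [ENNReal.ofReal_lt_ofReal_iff hpi]
  nlinarith

end Pool.Agent.Y516.CP
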