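import Pool.Agent.Y516.CP.Rig
import Pool.Agent.Y516.CP.Ctl

set_option autoImplicit false

open MeasureTheory Metric Set Filter Topology
open scoped ENNReal ContDiff RealInnerProductSpace

namespace Pool.Agent.Y516.CP

open Pool.Agent.Results.MP_cf1990_gt.EveryDim

variable {n : ℕ}

/-- smoothness of the profile from smoothness of the rotation -/
theorem prof_smooth_of {a : ℝ} (ha : 0 < a) {c s : ℝ → ℝ} (hc : ContDiffAt ℝ 2 c a)
    (hs : ContDiffAt ℝ 2 s a) (h1 : ∀ᶠ t in 𝓝 a, Real.cos (prof (t ^ 2)) = c t)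
    (h2 : ∀ᶠ t in 𝓝 a, Real.sin (prof (t ^ 2)) = s t) : ContDiffAt ℝ 2 prof (a ^ 2) := by
  set H : ℝ → ℝ := fun t => prof (t ^ 2) with hH
  have hHc : Continuous H := by
    have := continuous_prof
    simp only [hH]; fun_prop
  have e1 : ContDiffAt ℝ 2 (fun t => s t * Real.cos (H a) - c t * Real.sin (H a)) a :=
    (hs.mul contDiffAt_const).sub (hc.mul contDiffAt_const)
  have e2 : (fun t => Real.sin (H t - H a)) =ᶠ[𝓝 a]
      fun t => s t * Real.cos (H a) - c t * Real.sin (H a) := by
    filter_upwards [h1, h2] with t g1 g2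
    rw [Real.sin_sub, ← g1, ← g2]
  have e3 : ContDiffAt ℝ 2 (fun t => Real.sin (H t - H a)) a := e1.congr_of_eventuallyEq e2
  have e4 : ContDiffAt ℝ 2 (fun t => Real.arcsin (Real.sin (H t - H a))) a := by
    have h5 : ContDiffAt ℝ 2 Real.arcsin (Real.sin (H a - H a)) := by
      apply Real.contDiffAt_arcsin <;> simp
    exact ContDiffAt.comp (g := Real.arcsin) a h5 e3
  have e5 : ContDiffAt ℝ 2 (fun t => Real.arcsin (Real.sin (H t - H a)) + H a) a :=
    e4.add contDiffAt_const
  have e6 : ContDiffAt ℝ 2 H a := by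
    refine e5.congr_of_eventuallyEq ?_
    have h6 : ∀ᶠ t in 𝓝 a, H t - H a ∈ Ioo (-(Real.pi / 2)) (Real.pi / 2) := by
      have h7 : Continuous fun t => H t - H a := by fun_prop
      have h8 := h7.tendsto a
      rw [sub_self] at h8
      have := Real.pi_pos
      exact h8.eventually (Ioo_mem_nhds (by linarith) (by linarith))
    filter_upwards [h6] with t ht
    rw [Real.arcsin_sin ht.1.le ht.2.le]; ring
  have e7 : ContDiffAt ℝ 2 (fun x => H (√x)) (a ^ 2) := by
    have h7 : ContDiffAt ℝ 2 (fun x : ℝ => √x) (a ^ 2) :=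
      contDiffAt_id.sqrt (by show a ^ 2 ≠ 0; positivity)
    refine ContDiffAt.comp (g := H) (a ^ 2) ?_ h7
    rw [Real.sqrt_sq ha.le]; exact e6
  refine e7.congr_of_eventuallyEq ?_
  filter_upwards [lt_mem_nhds (show 0 < a ^ 2 by positivity)] with x hx
  simp only [hH]
  rw [Real.sq_sqrt hx.le]

/-- the kink is visible along the spokes -/
theorem kink {G χ : E n ≃ₜ E n} (hχ : ∀ z, χ z = tw prof (G z)) {j : ℕ} {u u' : E n}
    (hu : ‖u‖ = 1) (hu' : ‖u'‖ = 1) (hG0 : G (rad j • u') = rad j • u)
    (hcurve : ∀ᶠ t in 𝓝 (rad j), G.symm (t • u) = ‖G.symm (t • u)‖ • u') {A : E n →L[ℝ] E n}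
    (hA : HasFDerivAt χ A (rad j • u')) (hA' : ∀ v w, omega (A v) (A w) = omega v w) :
    ¬ ContDiffAt ℝ 2 χ (rad j • u') := by
  intro hc
  set a := rad j with ha_def
  have ha : 0 < a := rad_pos j
  set γ : ℝ → E n := fun x => χ (x • u') with hγ_def
  set T : ℝ → ℝ := fun x => ‖χ (x • u')‖ with hT_def
  set r : ℝ → ℝ := fun t => ‖G.symm (t • u)‖ with hr_def
  have hsymm : G.symm (a • u) = a • u' := by rw [← hG0, G.symm_apply_apply]
  have hra : r a = a := by
    simp only [hr_def]
    rw [hsymm, norm_smul, hu', mul_one, Real.norm_of_nonneg ha.le]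
  have hTa : T a = a := by
    simp only [hT_def]
    rw [hχ, norm_tw, hG0, norm_smul, hu, mul_one, Real.norm_of_nonneg ha.le]
  have hγ : ContDiffAt ℝ 2 γ a := by
    have h1 : ContDiffAt ℝ 2 (fun x : ℝ => x • u') a := contDiffAt_id.smul contDiffAt_const
    exact ContDiffAt.comp (g := χ) a hc h1
  have hT : ContDiffAt ℝ 2 T a := by
    refine hγ.norm ℝ ?_
    intro h0
    have : T a = 0 := by simp only [hT_def]; simp only [hγ_def] at h0; rw [h0, norm_zero]
    rw [hTa] at this
    linarith
  have hchi : ∀ᶠ t in 𝓝 a, χ (r t • u') = t • rot (prof (t ^ 2)) u := by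
    filter_upwards [hcurve, lt_mem_nhds ha] with t ht ht0
    have h1 : r t • u' = G.symm (t • u) := ht.symm
    rw [h1, hχ, G.apply_symm_apply]
    unfold tw
    rw [rot_smul, norm_smul, hu, mul_one, Real.norm_of_nonneg ht0.le]
  have hTr : ∀ᶠ t in 𝓝 a, T (r t) = t := by
    filter_upwards [hchi, lt_mem_nhds ha] with t ht ht0
    simp only [hT_def]
    rw [ht, norm_smul, norm_rot, hu, mul_one, Real.norm_of_nonneg ht0.le]
  have hrc : Continuous r := by
    have := G.symm.continuous
    simp only [hr_def]; fun_prop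
  -- differentiability of `r`
  have hrd : DifferentiableAt ℝ r a := by
    have hsurj := surj hA'
    have hinj : Function.Injective (A : E n →ₗ[ℝ] E n) :=
      LinearMap.injective_iff_surjective.mpr hsurj
    let Ae : E n ≃L[ℝ] E n := ContinuousLinearEquiv.ofBijective A
      (LinearMap.ker_eq_bot.mpr hinj) (LinearMap.range_eq_top.mpr hsurj)
    have hAe : (Ae : E n →L[ℝ] E n) = A := ContinuousLinearEquiv.coe_ofBijective _ _ _
    have h1 : HasFDerivAt χ.symm (Ae.symm : E n →L[ℝ] E n) (χ (a • u')) := by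
      refine HasFDerivAt.of_local_left_inverse χ.symm.continuous.continuousAt (f := χ) ?_
        (Eventually.of_forall χ.apply_symm_apply)
      rw [χ.symm_apply_apply, hAe]; exact hA
    have h2 : ∀ w, G.symm w = χ.symm (tw prof w) := by
      intro w
      apply χ.injective
      rw [χ.apply_symm_apply, hχ, G.apply_symm_apply]
    have h3 : DifferentiableAt ℝ (tw prof) (a • u) := by
      have h4 : DifferentiableAt ℝ prof (‖a • u‖ ^ 2) := by
        apply prof_differentiableAt
        rw [norm_smul, hu, mul_one, Real.norm_of_nonneg ha.le]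
        positivity
      exact (hasFDerivAt_tw h4.hasDerivAt).differentiableAt
    have h5 : DifferentiableAt ℝ (fun t : ℝ => t • u) a := by fun_prop
    have h6 : DifferentiableAt ℝ (fun t : ℝ => tw prof (t • u)) a :=
      DifferentiableAt.comp (𝕜 := ℝ) (g := tw prof) (f := fun t : ℝ => t • u) a h3 h5
    have h7 : DifferentiableAt ℝ χ.symm (tw prof (a • u)) := by
      rw [← hG0, ← hχ]; exact h1.differentiableAt
    have h8 : DifferentiableAt ℝ (fun t : ℝ => χ.symm (tw prof (t • u))) a :=
      DifferentiableAt.comp (𝕜 := ℝ) (g := χ.symm) (f := fun t : ℝ => tw prof (t • u)) a h7 h6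
    have h9 : DifferentiableAt ℝ (fun t : ℝ => ⟪χ.symm (tw prof (t • u)), u'⟫) a :=
      h8.inner ℝ (differentiableAt_const _)
    refine h9.congr_of_eventuallyEq ?_
    filter_upwards [hcurve] with t ht
    have h10 : χ.symm (tw prof (t • u)) = r t • u' := by rw [← h2]; exact ht
    rw [h10, inner_smul_left, real_inner_self_eq_norm_sq, hu']
    simp
  have hTd : HasDerivAt T (deriv T a) a := (hT.differentiableAt (by norm_num)).hasDerivAt
  have hT0 : deriv T a ≠ 0 := by
    have h1 : HasDerivAt (fun t => T (r t)) (deriv T a * deriv r a) a := by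
      have h2 : HasDerivAt T (deriv T a) (r a) := by rw [hra]; exact hTd
      exact h2.comp a hrd.hasDerivAt
    have h3 : HasDerivAt (fun t : ℝ => t) (deriv T a * deriv r a) a :=
      h1.congr_of_eventuallyEq (by filter_upwards [hTr] with t ht; exact ht.symm)
    have h4 := h3.unique (hasDerivAt_id a)
    intro h0
    rw [h0, zero_mul] at h4
    exact zero_ne_one h4
  -- local inverse
  have hTe := hTd.hasFDerivAt_equiv hT0
  have hg : ContDiffAt ℝ 2 (hT.localInverse hTe two_ne_zero) (T a) :=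
    hT.to_localInverse hTe two_ne_zero
  have hleft : ∀ᶠ x in 𝓝 a, hT.localInverse hTe two_ne_zero (T x) = x :=
    (hT.hasStrictFDerivAt' hTe two_ne_zero).eventually_left_inverse
  have hr2 : ContDiffAt ℝ 2 r a := by
    rw [hTa] at hg
    refine hg.congr_of_eventuallyEq ?_
    have h1 : Tendsto r (𝓝 a) (𝓝 a) := by
      have := hrc.tendsto a
      rwa [hra] at this
    filter_upwards [h1.eventually hleft, hTr] with t g1 g2
    rw [g2] at g1
    exact g1.symm
  have hcomp : ContDiffAt ℝ 2 (fun t => γ (r t)) a := by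
    have h1 : ContDiffAt ℝ 2 γ (r a) := by rw [hra]; exact hγ
    exact ContDiffAt.comp (g := γ) a h1 hr2
  have hJu : ‖J u‖ = 1 := by rw [norm_J, hu]
  have huJ : ⟪u, J u⟫ = 0 := by rw [real_inner_comm]; exact inner_J_self u
  have hJu' : ⟪J u, u⟫ = 0 := inner_J_self u
  refine prof_not_contDiffAt j (prof_smooth_of ha (c := fun t => ⟪γ (r t), u⟫ / t)
    (s := fun t => ⟪γ (r t), J u⟫ / t) ?_ ?_ ?_ ?_)
  · exact (hcomp.inner ℝ contDiffAt_const).div contDiffAt_id ha.ne'
  · exact (hcomp.inner ℝ contDiffAt_const).div contDiffAt_id ha.ne'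
  · filter_upwards [hchi, lt_mem_nhds ha] with t ht ht0
    simp only [hγ_def]
    rw [ht, inner_smul_left]
    unfold rot
    rw [inner_add_left, inner_smul_left, inner_smul_left, hJu', real_inner_self_eq_norm_sq, hu]
    simp only [conj_trivial]
    field_simp
    ring
  · filter_upwards [hchi, lt_mem_nhds ha] with t ht ht0
    simp only [hγ_def]
    rw [ht, inner_smul_left]
    unfold rot
    rw [inner_add_left, inner_smul_left, inner_smul_left, huJ, real_inner_self_eq_norm_sq, hJu]
    simp only [conj_trivial]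
    field_simp
    ring

/-- the curves `G⁻¹ (t • D i)` stay in the spokes -/
theorem spoke_curve {D : ℕ → E n} (hD : ∀ i, ‖D i‖ = 1) {G : E n ≃ₜ E n}
    (hG : ∀ z ∈ V D, G z ∈ V D) (hS : ∀ j z, ‖z‖ = rad j ↔ ‖G z‖ = rad j) {i j : ℕ} (hij : i ≤ j)
    {t : ℝ} (h1 : rad j / 2 ≤ t) (h2 : t ≤ 3 / 2 * rad j) : G.symm (t • D i) ∈ Y D j := by
  have hr := rad_pos j
  set C : Set (E n) := (fun t : ℝ => G.symm (t • D i)) '' Icc (rad j / 2) (3 / 2 * rad j) with hC
  have hCp : IsPreconnected C := by
    refine isPreconnected_Icc.image _ ?_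
    have := G.symm.continuous
    fun_prop
  have hav : ∀ z ∈ C, z ∉ V D := by
    rintro _ ⟨t, ht, rfl⟩ hV
    have := hG _ hV
    simp only at this
    rw [G.apply_symm_apply] at this
    exact this.2.2 j (Or.inr ⟨i, hij, t, ht.1, ht.2, rfl⟩)
  have hm : G.symm (rad j • D i) ∈ C := ⟨rad j, ⟨by linarith, by linarith⟩, rfl⟩
  have hnorm : ‖G.symm (rad j • D i)‖ = rad j := by
    rw [hS, G.apply_symm_apply, norm_smul, hD, mul_one, Real.norm_of_nonneg hr.le]
  have hmem : G.symm (t • D i) ∈ C := ⟨t, ⟨h1, h2⟩, rfl⟩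
  rcases pre_cases hD hCp hav hm with h | h | ⟨k, h⟩
  · have := h _ hm
    rw [hnorm] at this
    have := rad_le_half j
    linarith
  · have := h _ hm
    rw [this, norm_zero] at hnorm
    linarith
  · have h3 := Y_norm hD (h hm)
    rw [hnorm] at h3
    have hk := rad_pos k
    have : k = j := by
      rcases lt_trichotomy k j with h' | h' | h'
      · have := rad_lt h'; linarith
      · exact h'
      · have := rad_lt h'; linarith
    rw [← this]; exact h hmem

end Pool.Agent.Y516.CP
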