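import Pool.Agent.Y516.CP.Twist

set_option autoImplicit false

open MeasureTheory Metric Set Filter Topology
open scoped ENNReal ContDiff RealInnerProductSpace

namespace Pool.Agent.Y516.CP

open Pool.Agent.Results.MP_cf1990_gt.EveryDim

variable {n : ℕ}

/-- `f` is a limit of symplectomorphisms, uniformly on bounded sets -/
def Lim (f : E n → E n) : Prop :=
  ∀ R ε : ℝ, 0 < ε → ∃ ψ : E n ≃ E n, IsSymplecto ψ ∧ ∀ z, ‖z‖ ≤ R → dist (ψ z) (f z) ≤ ε

theorem lim_of_symplecto {ψ : E n ≃ E n} (h : IsSymplecto ψ) : Lim ψ :=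
  fun _ ε hε => ⟨ψ, h, fun z _ => by rw [dist_self]; exact hε.le⟩

theorem Lim.comp {f g : E n → E n} (hf : Lim f) (hg : Lim g) (cf : Continuous f)
    (cg : Continuous g) : Lim (f ∘ g) := by
  intro R ε hε
  have hK : IsCompact (g '' closedBall 0 R) := (isCompact_closedBall 0 R).image cg
  obtain ⟨M, hM⟩ := hK.isBounded.subset_closedBall 0
  have huc : UniformContinuousOn f (closedBall 0 (M + 1)) :=
    (isCompact_closedBall 0 (M + 1)).uniformContinuousOn_of_continuous cf.continuousOn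
  rw [Metric.uniformContinuousOn_iff] at huc
  obtain ⟨δ, hδ, hu⟩ := huc (ε / 2) (by positivity)
  obtain ⟨ψ₁, h1, h1'⟩ := hf (M + 1) (ε / 2) (by positivity)
  obtain ⟨ψ₂, h2, h2'⟩ := hg R (min (δ / 2) 1) (by positivity)
  refine ⟨ψ₂.trans ψ₁, h2.comp h1, fun z hz => ?_⟩
  have h3 := h2' z hz
  have h4 : ‖g z‖ ≤ M := by
    have := hM ⟨z, by simpa using hz, rfl⟩
    simpa using this
  have h5 : ‖ψ₂ z‖ ≤ M + 1 := by
    have e : ψ₂ z = (ψ₂ z - g z) + g z := by abel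
    have h6 : ‖ψ₂ z - g z‖ ≤ 1 := by
      rw [← dist_eq_norm]; exact h3.trans (min_le_right _ _)
    rw [e]
    refine (norm_add_le _ _).trans ?_
    linarith
  have h7 : dist (f (ψ₂ z)) (f (g z)) < ε / 2 := by
    refine hu _ (by simpa using h5) _ (by simp; linarith) ?_
    refine lt_of_le_of_lt (h3.trans (min_le_left _ _)) (by linarith)
  have h8 := h1' (ψ₂ z) h5
  calc dist ((ψ₂.trans ψ₁) z) ((f ∘ g) z) = dist (ψ₁ (ψ₂ z)) (f (g z)) := rfl
    _ ≤ dist (ψ₁ (ψ₂ z)) (f (ψ₂ z)) + dist (f (ψ₂ z)) (f (g z)) := dist_triangle _ _ _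
    _ ≤ ε := by linarith

theorem poly_contDiff (p : Polynomial ℝ) : ContDiff ℝ ∞ (fun x : ℝ => p.eval x) := by
  have h := Polynomial.contDiff_aeval p ∞ (𝕜 := ℝ) (R := ℝ)
  simpa [Polynomial.aeval_def] using h

theorem lim_tw {h : ℝ → ℝ} (hh : Continuous h) : Lim (tw h : E n → E n) := by
  intro R ε hε
  obtain ⟨p, hp⟩ := exists_polynomial_near_of_continuousOn 0 (R ^ 2) h hh.continuousOn
    (ε / (2 * |R| + 1)) (by positivity)
  refine ⟨twE fun x => p.eval x, isSymplecto_tw (poly_contDiff p), fun z hz => ?_⟩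
  have h0 : 0 ≤ ‖z‖ := norm_nonneg z
  have hR : 0 ≤ R := h0.trans hz
  have h1 : ‖z‖ ^ 2 ∈ Icc 0 (R ^ 2) := ⟨by positivity, by nlinarith⟩
  have h2 := hp _ h1
  have h3 : dist (tw (fun x => p.eval x) z) (tw h z) ≤ |p.eval (‖z‖ ^ 2) - h (‖z‖ ^ 2)| * (2 * ‖z‖) :=
    dist_rot_le _ _ _
  refine h3.trans ?_
  have h4 : (0 : ℝ) < 2 * |R| + 1 := by positivity
  calc |p.eval (‖z‖ ^ 2) - h (‖z‖ ^ 2)| * (2 * ‖z‖) ≤ ε / (2 * |R| + 1) * (2 * |R| + 1) := by
        have : ‖z‖ ≤ |R| := hz.trans (le_abs_self R)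
        gcongr
        linarith
    _ = ε := by field_simp

theorem Lim.conj {f : E n → E n} (hf : Lim f) {s : ℝ} (hs : s ≠ 0) :
    Lim (fun z => s • f (s⁻¹ • z)) := by
  intro R ε hε
  have hs' : 0 < |s| := abs_pos.mpr hs
  obtain ⟨ψ, h1, h2⟩ := hf (|s|⁻¹ * R) (ε / |s|) (by positivity)
  refine ⟨conjS s hs ψ, h1.conj hs, fun z hz => ?_⟩
  have h3 := h2 (s⁻¹ • z) (by
    rw [norm_smul, norm_inv, Real.norm_eq_abs]; gcongr)
  show dist (s • ψ (s⁻¹ • z)) (s • f (s⁻¹ • z)) ≤ ε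
  rw [dist_smul₀, Real.norm_eq_abs]
  calc |s| * dist (ψ (s⁻¹ • z)) (f (s⁻¹ • z)) ≤ |s| * (ε / |s|) := by gcongr
    _ = ε := by field_simp

/-- volume bound for limits of symplectomorphisms -/
theorem Lim.le_ball (hn : 0 < n) {f : E n → E n} (hf : Lim f) {a b : ℝ} {x : E n} (ha : 0 ≤ a)
    (hb : 0 ≤ b) (h : ∀ z, ‖z‖ ≤ a → dist (f z) x ≤ b) : a ≤ b := by
  refine le_of_forall_pos_le_add fun ε hε => ?_
  obtain ⟨ψ, h1, h2⟩ := hf a ε hε
  refine le_of_vol hn ha (by positivity) ?_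
  rw [← volume_image h1 measurableSet_closedBall, ← vol_ball (by positivity)]
  have h3 : volume (closedBall (0 : E n) (b + ε)) = volume (closedBall x (b + ε)) :=
    (Measure.addHaar_closedBall_center volume x (b + ε)).symm
  rw [h3]
  refine measure_mono ?_
  rintro _ ⟨z, hz, rfl⟩
  have hz' : ‖z‖ ≤ a := by simpa using hz
  rw [mem_closedBall]
  have h4 := dist_triangle (ψ z) (f z) x
  have h5 := h2 z hz'
  have h6 := h z hz'
  linarith

theorem cyl_near (hn : 0 < n) {r ε : ℝ} (hr : 0 ≤ r) (hε : 0 ≤ ε) {z w : E n} (hz : z ∈ cyl hn r)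
    (hw : dist w z ≤ ε) : w ∈ cyl hn (r + ε) := by
  simp only [cyl, mem_ofPred_eq] at hz ⊢
  set x := z (⟨0, hn⟩, 0)
  set y := z (⟨0, hn⟩, 1)
  set x' := w (⟨0, hn⟩, 0)
  set y' := w (⟨0, hn⟩, 1)
  have h1 : (x' - x) ^ 2 + (y' - y) ^ 2 ≤ ε ^ 2 := by
    have h2 : w - z ∈ closedBall (0 : E n) ε := by
      rw [mem_closedBall_zero_iff, ← dist_eq_norm]; exact hw
    have h3 := ball_subset_cyl hn hε h2
    simpa [cyl] using h3
  have h4 : (x * (x' - x) + y * (y' - y)) ^ 2 ≤ (r * ε) ^ 2 := by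
    have h5 : (x * (x' - x) + y * (y' - y)) ^ 2 ≤ (x ^ 2 + y ^ 2) * ((x' - x) ^ 2 + (y' - y) ^ 2) := by
      nlinarith [sq_nonneg (x * (y' - y) - y * (x' - x))]
    have h6 : (x ^ 2 + y ^ 2) * ((x' - x) ^ 2 + (y' - y) ^ 2) ≤ r ^ 2 * ε ^ 2 := by
      gcongr
    rw [mul_pow]; exact h5.trans h6
  have h7 : x * (x' - x) + y * (y' - y) ≤ r * ε := abs_le_of_sq_le_sq' h4 (by positivity) |>.2
  nlinarith

/-- nonsqueezing for limits of symplectomorphisms -/
theorem Lim.le_cyl (hn : 0 < n) (hNS : NS hn) {f : E n → E n} (hf : Lim f) {a r : ℝ} (ha : 0 ≤ a)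
    (hr : 0 < r) (h : ∀ z, ‖z‖ ≤ a → f z ∈ cyl hn r) : a ≤ r := by
  refine le_of_forall_pos_le_add fun ε hε => ?_
  obtain ⟨ψ, h1, h2⟩ := hf a ε hε
  refine hNS a (r + ε) ha (by positivity) ψ h1 ?_
  rintro _ ⟨z, hz, rfl⟩
  have hz' : ‖z‖ ≤ a := by simpa using hz
  exact cyl_near hn hr.le hε.le (h z hz') (h2 z hz')

/-- volume bound in a shell -/
theorem Lim.le_shell (hn : 0 < n) {f : E n → E n} (hf : Lim f) {a : ℝ} (ha : 0 ≤ a)
    (h : ∀ z, ‖z‖ ≤ a → ‖f z‖ ≤ 1) (h' : ∀ z, ‖z‖ ≤ a → 1 / 2 ≤ ‖f z‖) :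
    a ^ (2 * n) + (1 / 2) ^ (2 * n) ≤ 1 := by
  have key : ∀ ε : ℝ, 0 < ε → ε < 1 / 2 →
      a ^ (2 * n) + (1 / 2 - ε) ^ (2 * n) ≤ (1 + ε) ^ (2 * n) := by
    intro ε hε hε2
    obtain ⟨ψ, h1, h2⟩ := hf a ε hε
    have h3 : ψ '' closedBall 0 a ∪ ball 0 (1 / 2 - ε) ⊆ closedBall (0 : E n) (1 + ε) := by
      apply union_subset
      · rintro _ ⟨z, hz, rfl⟩
        have hz' : ‖z‖ ≤ a := by simpa using hz
        rw [mem_closedBall, ]
        have h4 := dist_triangle (ψ z) (f z) 0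
        have h5 := h2 z hz'
        have h6 := h z hz'
        rw [dist_zero_right (f z)] at h4
        linarith
      · refine (ball_subset_closedBall).trans (closedBall_subset_closedBall (by linarith))
    have h4 : Disjoint (ψ '' closedBall 0 a) (ball (0 : E n) (1 / 2 - ε)) := by
      rw [Set.disjoint_left]
      rintro _ ⟨z, hz, rfl⟩ hz2
      have hz' : ‖z‖ ≤ a := by simpa using hz
      have h5 := h2 z hz'
      have h6 := h' z hz'
      rw [mem_ball_zero_iff] at hz2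
      have h7 : ‖f z‖ ≤ ‖ψ z‖ + dist (ψ z) (f z) := by
        rw [dist_comm, dist_eq_norm]
        have := norm_add_le (ψ z) (f z - ψ z)
        simpa using this
      linarith
    have h5 := measure_mono (μ := volume) h3
    have h6 : volume (ball (0 : E n) (1 / 2 - ε)) =
        ENNReal.ofReal ((1 / 2 - ε) ^ (2 * n)) * volume (ball (0 : E n) 1) := by
      rw [Measure.addHaar_ball_of_pos volume (0 : E n) (by linarith : 0 < 1 / 2 - ε), finrank_E]
    rw [measure_union h4 measurableSet_ball, volume_image h1 measurableSet_closedBall,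
      vol_ball ha, vol_ball (by positivity), h6, ← add_mul, ENNReal.mul_le_mul_iff_left beta_pos.ne' beta_lt_top.ne,
      ← ENNReal.ofReal_add (by positivity) (by
        have : (0 : ℝ) ≤ 1 / 2 - ε := by linarith
        positivity),
      ENNReal.ofReal_le_ofReal_iff (by positivity)] at h5
    exact h5
  have t1 : Tendsto (fun ε : ℝ => a ^ (2 * n) + (1 / 2 - ε) ^ (2 * n)) (𝓝[>] 0)
      (𝓝 (a ^ (2 * n) + (1 / 2 - 0) ^ (2 * n))) := by
    refine Tendsto.mono_left ?_ nhdsWithin_le_nhds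
    exact Continuous.tendsto (by fun_prop) _
  have t2 : Tendsto (fun ε : ℝ => (1 + ε) ^ (2 * n)) (𝓝[>] 0) (𝓝 ((1 + 0) ^ (2 * n))) := by
    refine Tendsto.mono_left ?_ nhdsWithin_le_nhds
    exact Continuous.tendsto (by fun_prop) _
  have h3 := le_of_tendsto_of_tendsto t1 t2 (by
    filter_upwards [Ioo_mem_nhdsGT (show (0 : ℝ) < 1 / 2 by norm_num)] with ε hε
    exact key ε hε.1 hε.2)
  simpa using h3

/-- Gromov width under limits of symplectomorphisms -/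
theorem width_le_image {φ : E n ≃ₜ E n} (hφ : Lim φ) {V : Set (E n)} (hV : IsOpen V) :
    width V ≤ width (φ '' V) := by
  refine width_le fun ρ h0 ψ hψ h1 => ?_
  have hK : IsCompact (φ '' (ψ '' closedBall 0 ρ)) :=
    ((isCompact_closedBall 0 ρ).image hψ.1.continuous).image φ.continuous
  obtain ⟨δ, hδ, hth⟩ := hK.exists_thickening_subset_open (φ.isOpenMap V hV) (image_mono h1)
  obtain ⟨M, hM⟩ := (((isCompact_closedBall (0 : E n) ρ).image
    hψ.1.continuous).isBounded).subset_closedBall 0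
  obtain ⟨χ, hχ, hχ'⟩ := hφ M (δ / 2) (by positivity)
  refine le_width h0 (hψ.comp hχ) ?_
  rintro _ ⟨z, hz, rfl⟩
  apply hth
  rw [mem_thickening_iff]
  refine ⟨φ (ψ z), ⟨ψ z, ⟨z, hz, rfl⟩, rfl⟩, ?_⟩
  have h2 : ‖ψ z‖ ≤ M := by
    have := hM ⟨z, hz, rfl⟩
    simpa using this
  have h3 := hχ' _ h2
  exact lt_of_le_of_lt h3 (by linarith)

end Pool.Agent.Y516.CP
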