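import Pool.Agent.Y516.CP.Wall

set_option autoImplicit false

open MeasureTheory Metric Set Filter Topology
open scoped ENNReal ContDiff RealInnerProductSpace

namespace Pool.Agent.Y516.CP

open Pool.Agent.Results.MP_cf1990_gt.EveryDim

variable {n : ℕ}

theorem half_pow_le (hn : 0 < n) : ((1 : ℝ) / 2) ^ (2 * n) ≤ 1 / 4 := by
  have h1 : ((1 : ℝ) / 2) ^ (2 * n) ≤ (1 / 2) ^ 2 :=
    pow_le_pow_of_le_one (by norm_num) (by norm_num) (by omega)
  norm_num at h1 ⊢
  exact h1

/-- volume bound for limits of symplectomorphisms with image off the sphere of radius `1/2` -/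
theorem Lim.le_split (hn : 0 < n) {f : E n → E n} (hf : Lim f) (cf : Continuous f) {a : ℝ}
    (ha : 0 < a) (h : ∀ z, ‖z‖ ≤ a → ‖f z‖ ≤ 1) (h' : ∀ z, ‖z‖ < a → ‖f z‖ ≠ 1 / 2) :
    a ^ (2 * n) ≤ 1 - (1 / 2) ^ (2 * n) := by
  have hpre : IsPreconnected (f '' ball 0 a) :=
    (convex_ball (0 : E n) a).isPreconnected.image _ cf.continuousOn
  have hav : ∀ w ∈ f '' ball 0 a, ‖w‖ ≠ 1 / 2 := by
    rintro _ ⟨z, hz, rfl⟩
    exact h' z (by simpa using hz)
  have hcl : ∀ z : E n, ‖z‖ ≤ a → z ∈ closure (ball (0 : E n) a) := by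
    intro z hz
    rw [closure_ball (0 : E n) ha.ne']
    simpa using hz
  have h0 : f 0 ∈ f '' ball 0 a := ⟨0, by simpa using ha, rfl⟩
  rcases lt_or_gt_of_ne (hav _ h0) with h1 | h1
  · have h2 : ∀ z, ‖z‖ ≤ a → ‖f z‖ ≤ 1 / 2 := by
      intro z hz
      have h3 : closure (ball (0 : E n) a) ⊆ {z | ‖f z‖ ≤ 1 / 2} := by
        refine closure_minimal ?_ (isClosed_le (by fun_prop) continuous_const)
        intro w hw
        exact (norm_sep hpre hav h0 ⟨w, hw, rfl⟩ h1).le
      exact h3 (hcl z hz)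
    have h3 : a ≤ 1 / 2 := hf.le_ball hn ha.le (by norm_num) (x := 0) (fun z hz => by
      rw [dist_zero_right]; exact h2 z hz)
    have h4 : a ^ (2 * n) ≤ (1 / 2) ^ (2 * n) := by gcongr
    have h5 := half_pow_le hn
    linarith
  · have h2 : ∀ z, ‖z‖ ≤ a → 1 / 2 ≤ ‖f z‖ := by
      intro z hz
      have h3 : closure (ball (0 : E n) a) ⊆ {z | 1 / 2 ≤ ‖f z‖} := by
        refine closure_minimal ?_ (isClosed_le continuous_const (by fun_prop))
        intro w hw
        simp only [mem_ofPred_eq]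
        by_contra hcon
        push Not at hcon
        have := norm_sep hpre hav ⟨w, hw, rfl⟩ h0 hcon
        linarith
      exact h3 (hcl z hz)
    have := hf.le_shell hn ha.le h h2
    linarith

/-- a homothety composed with a limit of symplectomorphisms -/
structure Sc (s : ℝ) (G : E n ≃ₜ E n) : Prop where
  pos : 0 < s
  ex : ∃ χ : E n ≃ₜ E n, Lim χ ∧ Lim χ.symm ∧ ∀ z, G z = s • χ z

theorem Sc.le_ball (hn : 0 < n) {s : ℝ} {G : E n ≃ₜ E n} (h : Sc s G) {a b : ℝ} {x : E n}
    (ha : 0 ≤ a) (hb : 0 ≤ b) (hG : ∀ z, ‖z‖ ≤ a → dist (G z) x ≤ b) : s * a ≤ b := by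
  obtain ⟨χ, h1, -, h3⟩ := h.ex
  have hs := h.pos
  refine (h1.conj hs.ne').le_ball hn (by positivity) hb (x := x) fun z hz => ?_
  rw [← h3]
  refine hG _ ?_
  rw [norm_smul, norm_inv, Real.norm_of_nonneg hs.le, inv_mul_le_iff₀ hs]
  exact hz

theorem Sc.ball_le (hn : 0 < n) {s : ℝ} {G : E n ≃ₜ E n} (h : Sc s G) {a b : ℝ}
    (ha : 0 ≤ a) (hb : 0 ≤ b) (hG : ∀ w, ‖w‖ ≤ b → ‖G.symm w‖ ≤ a) : b ≤ s * a := by
  obtain ⟨χ, -, h2, h3⟩ := h.ex
  have hs := h.pos
  have e : ∀ w, G.symm w = χ.symm (s⁻¹ • w) := by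
    intro w
    apply G.injective
    rw [G.apply_symm_apply, h3, χ.apply_symm_apply, smul_smul, mul_inv_cancel₀ hs.ne', one_smul]
  refine (h2.conj hs.ne').le_ball hn hb (by positivity) (x := 0) fun z hz => ?_
  rw [dist_zero_right, norm_smul, Real.norm_of_nonneg hs.le, ← e]
  have := hG z hz
  gcongr

theorem Sc.le_split (hn : 0 < n) {s : ℝ} {G : E n ≃ₜ E n} (h : Sc s G)
    (h1 : ∀ z, ‖z‖ ≤ 1 → ‖G z‖ ≤ 1) (h2 : ∀ z, ‖z‖ < 1 → ‖G z‖ ≠ 1 / 2) :
    s ^ (2 * n) ≤ 1 - (1 / 2) ^ (2 * n) := by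
  obtain ⟨χ, g1, -, g3⟩ := h.ex
  have hs := h.pos
  have cf : Continuous fun z => s • χ (s⁻¹ • z) := by
    have := χ.continuous
    fun_prop
  refine (g1.conj hs.ne').le_split hn cf hs (fun z hz => ?_) (fun z hz => ?_)
  · rw [← g3]
    refine h1 _ ?_
    rw [norm_smul, norm_inv, Real.norm_of_nonneg hs.le, inv_mul_le_iff₀ hs]
    linarith
  · rw [← g3]
    refine h2 _ ?_
    rw [norm_smul, norm_inv, Real.norm_of_nonneg hs.le, inv_mul_lt_iff₀ hs]
    linarith

/-- the spheres are preserved -/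
theorem rigid (hn : 0 < n) {D : ℕ → E n} (hD : ∀ i, ‖D i‖ = 1) {s : ℝ} {G : E n ≃ₜ E n}
    (h : Sc s G) (hG : ∀ z ∈ V D, G z ∈ V D) (j : ℕ) :
    (∀ z, ‖G z‖ = rad j → 1 ≤ ‖z‖) ∨ ∃ k, s * rad k = rad j ∧
      (∀ z, ‖z‖ = rad k ↔ ‖G z‖ = rad j) ∧ (∀ z, ‖z‖ < rad k ↔ ‖G z‖ < rad j) := by
  obtain ⟨u, hu⟩ : ∃ u : E n, ‖u‖ = 1 := ⟨EuclideanSpace.single (⟨0, hn⟩, 0) 1, by simp⟩
  have hrj := rad_pos j
  have hCj : IsPreconnected (G ⁻¹' sphere 0 (rad j)) := by
    rw [← G.image_symm]
    exact (isPreconnected_sphere (one_lt_rank hn) _ _).image _ G.symm.continuous.continuousOn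
  have hav : ∀ z ∈ G ⁻¹' sphere 0 (rad j), z ∉ V D := by
    intro z hz hzV
    exact (hG z hzV).2.2 j (Or.inl hz)
  have hp1 : ‖rad j • u‖ = rad j := by
    rw [norm_smul, hu, mul_one, Real.norm_of_nonneg hrj.le]
  have hp2 : ‖(-rad j) • u‖ = rad j := by
    rw [norm_smul, hu, mul_one, norm_neg, Real.norm_of_nonneg hrj.le]
  have hm1 : G.symm (rad j • u) ∈ G ⁻¹' sphere 0 (rad j) := by
    rw [mem_preimage, G.apply_symm_apply, mem_sphere_zero_iff_norm, hp1]
  have hm2 : G.symm ((-rad j) • u) ∈ G ⁻¹' sphere 0 (rad j) := by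
    rw [mem_preimage, G.apply_symm_apply, mem_sphere_zero_iff_norm, hp2]
  rcases pre_cases hD hCj hav hm1 with hc | hc | ⟨k, hc⟩
  · left
    intro z hz
    exact hc z (by rw [mem_preimage, mem_sphere_zero_iff_norm]; exact hz)
  · exfalso
    have h1 : G.symm (rad j • u) = G.symm ((-rad j) • u) := by rw [hc _ hm1, hc _ hm2]
    have h2 := G.symm.injective h1
    have h3 : (2 * rad j) • u = 0 := by
      have : (2 * rad j) • u = rad j • u - (-rad j) • u := by module
      rw [this, h2, sub_self]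
    have h4 : u ≠ 0 := by intro h; rw [h] at hu; simp at hu
    rcases smul_eq_zero.mp h3 with h5 | h5
    · linarith
    · exact h4 h5
  · right
    have hrk := rad_pos k
    -- the sphere is contained
    have h1 : ∀ z, ‖z‖ = rad k → ‖G z‖ = rad j := by
      intro z hz
      by_contra hcon
      refine not_pre hn G hrj ?_
      refine sep hn hD (k := k) (a := rad k / 2) (b := 3 / 2 * rad k) (r := rad k) (by positivity)
        (by linarith) (by linarith) (isClosed_sphere.preimage G.continuous) hc hz ?_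
      rw [mem_preimage, mem_sphere_zero_iff_norm]
      exact hcon
    have h2 : ∀ z, ‖G z‖ = rad j → ‖z‖ = rad k := by
      intro z hz
      by_contra hcon
      refine not_pre hn G.symm hrk ?_
      refine sep hn hD (k := 0) (a := rad j) (b := rad j) (r := rad j) hrj
        le_rfl le_rfl (isClosed_sphere.preimage G.symm.continuous) ?_ hz ?_
      · intro w hw
        rw [mem_preimage, mem_sphere_zero_iff_norm] at hw
        have := h1 _ hw
        rw [G.apply_symm_apply] at this
        exact Or.inl (by rw [mem_sphere_zero_iff_norm]; exact this)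
      · rw [mem_preimage, mem_sphere_zero_iff_norm, G.symm_apply_apply]
        exact hcon
    -- interior and exterior
    have hBpre : IsPreconnected (G '' ball 0 (rad k)) :=
      (convex_ball (0 : E n) (rad k)).isPreconnected.image _ G.continuous.continuousOn
    have hBav : ∀ w ∈ G '' ball 0 (rad k), ‖w‖ ≠ rad j := by
      rintro _ ⟨z, hz, rfl⟩ hw
      have := h2 z hw
      rw [mem_ball_zero_iff] at hz
      linarith
    have hEpre : IsPreconnected (G '' {z : E n | rad k < ‖z‖}) :=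
      (far_preconnected hn hrk.le).image _ G.continuous.continuousOn
    have hEav : ∀ w ∈ G '' {z : E n | rad k < ‖z‖}, ‖w‖ ≠ rad j := by
      rintro _ ⟨z, hz, rfl⟩ hw
      have := h2 z hw
      simp only [mem_ofPred_eq] at hz
      linarith
    have hext : ∀ z, rad k < ‖z‖ → rad j < ‖G z‖ := by
      intro z hz
      by_contra hcon
      push Not at hcon
      have h3 : ‖G z‖ < rad j := lt_of_le_of_ne hcon (hEav _ ⟨z, hz, rfl⟩)
      have h4 : ∀ w, ‖G w‖ ≤ rad j ∨ w ∈ closedBall (0 : E n) (rad k) := by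
        intro w
        by_cases hw : rad k < ‖w‖
        · left; exact (norm_sep hEpre hEav ⟨z, hz, rfl⟩ ⟨w, hw, rfl⟩ h3).le
        · right; simpa using hw
      have h5 : IsCompact (closedBall (0 : E n) (rad j) ∪ G '' closedBall 0 (rad k)) :=
        (isCompact_closedBall _ _).union ((isCompact_closedBall _ _).image G.continuous)
      obtain ⟨M, hM⟩ := h5.isBounded.subset_closedBall 0
      have h6 : ∀ w : E n, ‖w‖ ≤ M := by
        intro w
        have h7 : w ∈ closedBall (0 : E n) (rad j) ∪ G '' closedBall 0 (rad k) := by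
          rcases h4 (G.symm w) with h | h
          · left; rw [G.apply_symm_apply] at h; simpa using h
          · right; exact ⟨_, h, G.apply_symm_apply w⟩
        simpa using hM h7
      have h8 := h6 ((|M| + 1) • u)
      rw [norm_smul, hu, mul_one, Real.norm_of_nonneg (by positivity)] at h8
      have := le_abs_self M
      linarith
    have hint : ∀ z, ‖z‖ < rad k → ‖G z‖ < rad j := by
      intro z hz
      set w₀ := G.symm 0 with hw₀
      have h3 : ‖G w₀‖ < rad j := by rw [hw₀, G.apply_symm_apply, norm_zero]; exact hrj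
      have h4 : ‖w₀‖ < rad k := by
        rcases lt_trichotomy ‖w₀‖ (rad k) with h | h | h
        · exact h
        · have := h1 _ h; linarith
        · have := hext _ h; linarith
      exact norm_sep hBpre hBav ⟨w₀, by simpa using h4, rfl⟩ ⟨z, by simpa using hz, rfl⟩ h3
    have hlt : ∀ z, ‖z‖ < rad k ↔ ‖G z‖ < rad j := by
      intro z
      refine ⟨hint z, fun h => ?_⟩
      rcases lt_trichotomy ‖z‖ (rad k) with h' | h' | h'
      · exact h'
      · have := h1 _ h'; linarith
      · have := hext _ h'; linarith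
    have hle : ∀ z, ‖z‖ ≤ rad k ↔ ‖G z‖ ≤ rad j := by
      intro z
      constructor
      · intro h
        rcases h.lt_or_eq with h' | h'
        · exact (hint z h').le
        · exact (h1 z h').le
      · intro h
        rcases h.lt_or_eq with h' | h'
        · exact ((hlt z).mpr h').le
        · exact (h2 z h').le
    refine ⟨k, le_antisymm ?_ ?_, fun z => ⟨h1 z, h2 z⟩, hlt⟩
    · exact h.le_ball hn hrk.le hrj.le (x := 0) fun z hz => by
        rw [dist_zero_right]; exact (hle z).mp hz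
    · refine h.ball_le hn hrk.le hrj.le fun w hw => ?_
      rw [hle, G.apply_symm_apply]; exact hw

theorem le_one_of (hn : 0 < n) {D : ℕ → E n} {G : E n ≃ₜ E n}
    (hG : ∀ z ∈ V D, G z ∈ V D) : ∀ z, ‖z‖ ≤ 1 → ‖G z‖ ≤ 1 := by
  have h1 : closure (V D) ⊆ {z | ‖G z‖ ≤ 1} := by
    refine closure_minimal ?_ (isClosed_le (by have := G.continuous; fun_prop) continuous_const)
    intro z hz
    exact (hG z hz).2.1.le
  intro z hz
  exact h1 (V_dense hn (by simpa using hz))

/-- the alternative -/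
theorem alternative (hn : 0 < n) {D : ℕ → E n} (hD : ∀ i, ‖D i‖ = 1) {s : ℝ} {G : E n ≃ₜ E n}
    (h : Sc s G) (hG : ∀ z ∈ V D, G z ∈ V D) :
    s ^ (2 * n) ≤ 1 - (1 / 2) ^ (2 * n) ∨ (s = 1 ∧ ∀ j z, ‖z‖ = rad j ↔ ‖G z‖ = rad j) := by
  have hle := le_one_of hn hG
  rcases rigid hn hD h hG 0 with h0 | ⟨k, hk, hk1, hk2⟩
  · left
    refine h.le_split hn hle fun z hz hz2 => ?_
    have := h0 z (by rw [rad_zero]; exact hz2)
    linarith
  · right
    have hs1 : s ≤ 1 := by
      have := h.le_ball hn zero_le_one zero_le_one (x := 0) (fun z hz => by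
        rw [dist_zero_right]; exact hle z hz)
      linarith
    have hs0 := h.pos
    have hk0 : k = 0 := by
      apply rad_inj
      refine le_antisymm (rad_anti (Nat.zero_le k)) ?_
      rw [← hk]
      have := rad_pos k
      nlinarith
    subst hk0
    have hs : s = 1 := by
      have := rad_pos 0
      have h3 : (s - 1) * rad 0 = 0 := by linarith
      rcases mul_eq_zero.mp h3 with h4 | h4 <;> linarith
    refine ⟨hs, fun j z => ?_⟩
    rcases rigid hn hD h hG j with h1 | ⟨m, hm, hm1, -⟩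
    · exfalso
      obtain ⟨u, hu⟩ : ∃ u : E n, ‖u‖ = 1 := ⟨EuclideanSpace.single (⟨0, hn⟩, 0) 1, by simp⟩
      have hrj := rad_pos j
      have h2 : ‖G (G.symm (rad j • u))‖ = rad j := by
        rw [G.apply_symm_apply, norm_smul, hu, mul_one, Real.norm_of_nonneg hrj.le]
      have h3 := h1 _ h2
      have h4 : ‖G.symm (rad j • u)‖ ≤ rad 0 := by
        have h5 : ‖G (G.symm (rad j • u))‖ ≤ rad 0 := by rw [h2]; exact rad_anti (Nat.zero_le j)
        rcases h5.lt_or_eq with h6 | h6
        · exact ((hk2 _).mpr h6).le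
        · exact ((hk1 _).mpr h6).le
      rw [rad_zero] at h4
      linarith
    · rw [hs, one_mul] at hm
      have := rad_inj hm
      subst this
      exact hm1 z

end Pool.Agent.Y516.CP
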