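import Pool.Agent.Y516.CP.Lim

set_option autoImplicit false

open MeasureTheory Metric Set Filter Topology
open scoped ENNReal ContDiff RealInnerProductSpace

namespace Pool.Agent.Y516.CP

open Pool.Agent.Results.MP_cf1990_gt.EveryDim

variable {n : ℕ}

theorem one_lt_rank (hn : 0 < n) : 1 < Module.rank ℝ (E n) := by
  rw [← Module.finrank_eq_rank, finrank_E]
  exact_mod_cast (by omega : 1 < 2 * n)

/-- finitely many radial segments -/
def Spk (D : ℕ → E n) (k : ℕ) (a b : ℝ) : Set (E n) :=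
  {z | ∃ i, i ≤ k ∧ ∃ t, a ≤ t ∧ t ≤ b ∧ z = t • D i}

theorem null_line (hn : 0 < n) (d : E n) :
    (volume : Measure (E n)) (Submodule.span ℝ {d} : Submodule ℝ (E n)) = 0 := by
  refine Measure.addHaar_submodule volume _ fun h => ?_
  have h1 := finrank_span_le_card (R := ℝ) ({d} : Set (E n))
  rw [h, finrank_top, finrank_E] at h1
  simp at h1
  omega

theorem null_spk (hn : 0 < n) (D : ℕ → E n) (k : ℕ) (a b : ℝ) :
    (volume : Measure (E n)) (Spk D k a b) = 0 := by
  refine measure_mono_null (t := ⋃ i : ℕ, ((Submodule.span ℝ {D i} : Submodule ℝ (E n)) :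
    Set (E n))) ?_ (measure_iUnion_null fun i => null_line hn _)
  rintro z ⟨i, -, t, -, -, rfl⟩
  exact mem_iUnion.mpr ⟨i, Submodule.smul_mem _ _ (Submodule.mem_span_singleton_self _)⟩

theorem null_sphere (hn : 0 < n) (r : ℝ) : (volume : Measure (E n)) (sphere 0 r) = 0 := by
  have : Nonempty (Fin n × Fin 2) := ⟨(⟨0, hn⟩, 0)⟩
  exact Measure.addHaar_sphere volume (0 : E n) r

theorem dense_of_null {S : Set (E n)} (h : (volume : Measure (E n)) S = 0) : Dense Sᶜ :=
  Measure.dense_of_ae (μ := (volume : Measure (E n))) (p := fun z => z ∈ Sᶜ) (by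
    rw [ae_iff]; simpa using h)

theorem far_preconnected (hn : 0 < n) {b : ℝ} (hb : 0 ≤ b) :
    IsPreconnected {z : E n | b < ‖z‖} := by
  have h1 : IsPreconnected ((fun p : ℝ × E n => p.1 • p.2) '' (Ioi b ×ˢ sphere (0 : E n) 1)) := by
    refine IsPreconnected.image (isPreconnected_Ioi.prod
      (isPreconnected_sphere (one_lt_rank hn) _ _)) _ ?_
    fun_prop
  convert h1 using 1
  ext z
  simp only [mem_ofPred_eq, mem_image, mem_prod, mem_Ioi, mem_sphere_zero_iff_norm, Prod.exists]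
  constructor
  · intro h
    have hz : ‖z‖ ≠ 0 := by linarith [norm_nonneg z]
    refine ⟨‖z‖, ‖z‖⁻¹ • z, ⟨h, ?_⟩, ?_⟩
    · rw [norm_smul, norm_inv, norm_norm, inv_mul_cancel₀ hz]
    · rw [smul_smul, mul_inv_cancel₀ hz, one_smul]
  · rintro ⟨t, u, ⟨ht, hu⟩, rfl⟩
    rw [norm_smul, hu, mul_one]
    exact lt_of_lt_of_le ht (le_abs_self t)

theorem inner_preconnected {D : ℕ → E n} {k : ℕ} {a b r : ℝ} (hD : ∀ i, ‖D i‖ = 1)
    (ha : 0 < a) (hr : 0 < r) (hb : r ≤ b) :
    IsPreconnected ({z : E n | ‖z‖ < r} \ Spk D k a b) := by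
  have h0 : (0 : E n) ∈ ({z : E n | ‖z‖ < r} \ Spk D k a b) := by
    refine ⟨by simpa using hr, ?_⟩
    rintro ⟨i, -, t, ht, -, h⟩
    have h2 := congrArg norm h
    rw [norm_zero, norm_smul, hD, mul_one, Real.norm_eq_abs] at h2
    have := abs_pos.mpr (show t ≠ 0 by linarith)
    linarith
  have hs : StarConvex ℝ (0 : E n) ({z : E n | ‖z‖ < r} \ Spk D k a b) := by
    rw [starConvex_zero_iff]
    rintro z ⟨hz1, hz2⟩ τ hτ0 hτ1
    refine ⟨?_, ?_⟩
    · simp only [mem_ofPred_eq] at hz1 ⊢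
      rw [norm_smul, Real.norm_of_nonneg hτ0]
      have := norm_nonneg z
      nlinarith
    · rintro ⟨i, hi, t, hta, htb, h⟩
      have hτ : 0 < τ := by
        rcases hτ0.eq_or_lt with h' | h'
        · exfalso
          rw [← h', zero_smul] at h
          have h2 := congrArg norm h
          rw [norm_zero, norm_smul, hD, mul_one, Real.norm_eq_abs] at h2
          have := abs_pos.mpr (show t ≠ 0 by linarith)
          linarith
        · exact h'
      have hz : z = (t / τ) • D i := by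
        rw [div_eq_inv_mul, mul_smul, ← h, smul_smul, inv_mul_cancel₀ hτ.ne', one_smul]
      have hn1 : ‖z‖ = t / τ := by
        rw [hz, norm_smul, hD, mul_one, Real.norm_of_nonneg (div_nonneg (by linarith) hτ.le)]
      simp only [mem_ofPred_eq] at hz1
      refine hz2 ⟨i, hi, t / τ, ?_, ?_, hz⟩
      · rw [le_div_iff₀ hτ]; nlinarith
      · linarith
  exact (hs.isPathConnected h0).isConnected.isPreconnected

theorem outer_preconnected (hn : 0 < n) {D : ℕ → E n} {k : ℕ} {a b r : ℝ} (hD : ∀ i, ‖D i‖ = 1)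
    (ha : 0 < a) (hr : a ≤ r) (hb : r ≤ b) :
    IsPreconnected ({z : E n | r < ‖z‖} \ Spk D k a b) := by
  have hfar : {z : E n | b < ‖z‖} ⊆ {z : E n | r < ‖z‖} \ Spk D k a b := by
    intro z hz
    simp only [mem_ofPred_eq] at hz
    refine ⟨by simp only [mem_ofPred_eq]; linarith, ?_⟩
    rintro ⟨i, -, t, hta, htb, h⟩
    have h2 := congrArg norm h
    rw [norm_smul, hD, mul_one, Real.norm_of_nonneg (by linarith)] at h2
    linarith
  have hray : ∀ z ∈ ({z : E n | r < ‖z‖} \ Spk D k a b), ∀ τ : ℝ, 1 ≤ τ →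
      τ • z ∈ ({z : E n | r < ‖z‖} \ Spk D k a b) := by
    rintro z ⟨hz1, hz2⟩ τ hτ
    have hτ0 : 0 < τ := by linarith
    simp only [mem_ofPred_eq] at hz1
    refine ⟨?_, ?_⟩
    · simp only [mem_ofPred_eq]
      rw [norm_smul, Real.norm_of_nonneg hτ0.le]
      nlinarith
    · rintro ⟨i, hi, t, hta, htb, h⟩
      have hz : z = (t / τ) • D i := by
        rw [div_eq_inv_mul, mul_smul, ← h, smul_smul, inv_mul_cancel₀ hτ0.ne', one_smul]
      have hn1 : ‖z‖ = t / τ := by
        rw [hz, norm_smul, hD, mul_one, Real.norm_of_nonneg (div_nonneg (by linarith) hτ0.le)]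
      refine hz2 ⟨i, hi, t / τ, ?_, ?_, hz⟩
      · rw [← hn1]; linarith
      · rw [div_le_iff₀ hτ0]; nlinarith
  -- base point
  have hb0 : 0 < b := by linarith
  obtain ⟨u, hu⟩ : ∃ u : E n, ‖u‖ = 1 := by
    refine ⟨EuclideanSpace.single (⟨0, hn⟩, 0) 1, by simp⟩
  have hx : (b + 1) • u ∈ {z : E n | b < ‖z‖} := by
    simp only [mem_ofPred_eq]
    rw [norm_smul, hu, mul_one, Real.norm_of_nonneg (by positivity)]
    linarith
  refine isPreconnected_of_forall ((b + 1) • u) fun y hy => ?_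
  have hy1 : r < ‖y‖ := hy.1
  refine ⟨(fun τ : ℝ => τ • y) '' Ici 1 ∪ {z : E n | b < ‖z‖}, ?_, Or.inr hx, Or.inl ⟨1, by simp,
    by simp⟩, ?_⟩
  · apply union_subset
    · rintro _ ⟨τ, hτ, rfl⟩
      exact hray y hy τ hτ
    · exact hfar
  · refine IsPreconnected.union' ?_ (isPreconnected_Ici.image _ (by fun_prop))
      (far_preconnected hn hb0.le)
    have hy0 : 0 < ‖y‖ := by linarith
    refine ⟨(b / ‖y‖ + 1) • y, ⟨b / ‖y‖ + 1, ?_, rfl⟩, ?_⟩
    · simp only [mem_Ici]
      have : 0 ≤ b / ‖y‖ := by positivity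
      linarith
    · simp only [mem_ofPred_eq]
      rw [norm_smul, Real.norm_of_nonneg (by positivity), add_mul, div_mul_cancel₀ _ hy0.ne']
      linarith

/-- a closed subset of a sphere with spokes, which misses a point of the sphere, does not
separate the space -/
theorem sep (hn : 0 < n) {D : ℕ → E n} {k : ℕ} {a b r : ℝ} (hD : ∀ i, ‖D i‖ = 1)
    (ha : 0 < a) (har : a ≤ r) (hrb : r ≤ b) {M : Set (E n)} (hM : IsClosed M)
    (hMY : M ⊆ sphere 0 r ∪ Spk D k a b) {p : E n} (hp : ‖p‖ = r) (hpM : p ∉ M) :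
    IsPreconnected Mᶜ := by
  have hr : 0 < r := by linarith
  obtain ⟨η, hη, hball⟩ := Metric.isOpen_iff.mp hM.isOpen_compl p hpM
  set I := {z : E n | ‖z‖ < r} \ Spk D k a b with hI
  set O := {z : E n | r < ‖z‖} \ Spk D k a b with hO
  have hdS : Dense (Spk D k a b)ᶜ := dense_of_null (null_spk hn D k a b)
  have hpc : IsPreconnected (ball p η) := (convex_ball p η).isPreconnected
  -- the ball meets both parts
  have hnormc : Continuous fun z : E n => ‖z‖ := continuous_norm
  have hm1 : (I ∩ ball p η).Nonempty := by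
    have hopen : IsOpen ({z : E n | ‖z‖ < r} ∩ ball p η) :=
      (isOpen_lt hnormc continuous_const).inter isOpen_ball
    have hne : ({z : E n | ‖z‖ < r} ∩ ball p η).Nonempty := by
      set c : ℝ := min (1 / 2) (η / (2 * r)) with hc
      have hc0 : 0 < c := by positivity
      have hc1 : c ≤ 1 / 2 := min_le_left _ _
      have hc2 : c ≤ η / (2 * r) := min_le_right _ _
      refine ⟨(1 - c) • p, ?_, ?_⟩
      · simp only [mem_ofPred_eq]
        rw [norm_smul, Real.norm_of_nonneg (by linarith), hp]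
        nlinarith
      · rw [mem_ball, dist_eq_norm]
        have : (1 - c) • p - p = (-c) • p := by module
        rw [this, norm_smul, norm_neg, Real.norm_of_nonneg hc0.le, hp]
        have h3 : c * r ≤ η / (2 * r) * r := by gcongr
        have h4 : η / (2 * r) * r = η / 2 := by field_simp
        linarith
    obtain ⟨z, hz1, hz2⟩ := hdS.inter_open_nonempty _ hopen hne
    exact ⟨z, ⟨hz1.1, hz2⟩, hz1.2⟩
  have hm2 : (O ∩ ball p η).Nonempty := by
    have hopen : IsOpen ({z : E n | r < ‖z‖} ∩ ball p η) :=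
      (isOpen_lt continuous_const hnormc).inter isOpen_ball
    have hne : ({z : E n | r < ‖z‖} ∩ ball p η).Nonempty := by
      set c : ℝ := η / (2 * r) with hc
      have hc0 : 0 < c := by positivity
      refine ⟨(1 + c) • p, ?_, ?_⟩
      · simp only [mem_ofPred_eq]
        rw [norm_smul, Real.norm_of_nonneg (by linarith), hp]
        nlinarith
      · rw [mem_ball, dist_eq_norm]
        have : (1 + c) • p - p = c • p := by module
        rw [this, norm_smul, Real.norm_of_nonneg hc0.le, hp]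
        have h4 : c * r = η / 2 := by rw [hc]; field_simp
        linarith
    obtain ⟨z, hz1, hz2⟩ := hdS.inter_open_nonempty _ hopen hne
    exact ⟨z, ⟨hz1.1, hz2⟩, hz1.2⟩
  have hC : IsPreconnected ((I ∪ ball p η) ∪ O) := by
    have h1 : IsPreconnected (I ∪ ball p η) :=
      IsPreconnected.union' hm1 (inner_preconnected hD ha hr hrb) hpc
    refine IsPreconnected.union' ?_ h1 (outer_preconnected hn hD ha har hrb)
    obtain ⟨z, hz1, hz2⟩ := hm2
    exact ⟨z, Or.inr hz2, hz1⟩
  have hIO : (sphere (0 : E n) r ∪ Spk D k a b)ᶜ ⊆ I ∪ O := by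
    intro z hz
    rw [mem_compl_iff, mem_union, not_or, mem_sphere_zero_iff_norm] at hz
    rcases lt_or_gt_of_ne hz.1 with h | h
    · exact Or.inl ⟨h, hz.2⟩
    · exact Or.inr ⟨h, hz.2⟩
  have hdense : Dense (sphere (0 : E n) r ∪ Spk D k a b)ᶜ :=
    dense_of_null (measure_union_null (null_sphere hn r) (null_spk hn D k a b))
  refine hC.subset_closure ?_ ?_
  · rintro z ((hz | hz) | hz)
    · intro hzM
      rcases hMY hzM with h | h
      · rw [mem_sphere_zero_iff_norm] at h
        exact absurd hz.1 (by simp only [mem_ofPred_eq]; linarith)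
      · exact hz.2 h
    · exact hball hz
    · intro hzM
      rcases hMY hzM with h | h
      · rw [mem_sphere_zero_iff_norm] at h
        exact absurd hz.1 (by simp only [mem_ofPred_eq]; linarith)
      · exact hz.2 h
  · have h1 : closure (sphere (0 : E n) r ∪ Spk D k a b)ᶜ = univ := hdense.closure_eq
    have h2 : closure (sphere (0 : E n) r ∪ Spk D k a b)ᶜ ⊆ closure ((I ∪ ball p η) ∪ O) := by
      refine closure_mono (hIO.trans ?_)
      rintro z (hz | hz)
      · exact Or.inl (Or.inl hz)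
      · exact Or.inr hz
    rw [h1] at h2
    exact (subset_univ _).trans h2

/-- the complement of a sphere is not preconnected, nor are its homeomorphic images -/
theorem not_pre (hn : 0 < n) (G : E n ≃ₜ E n) {r : ℝ} (hr : 0 < r) :
    ¬ IsPreconnected (G ⁻¹' (sphere 0 r))ᶜ := by
  intro h
  have h1 : IsPreconnected (G '' (G ⁻¹' (sphere 0 r))ᶜ) := h.image _ G.continuous.continuousOn
  have h2 : G '' (G ⁻¹' (sphere 0 r))ᶜ = (sphere 0 r)ᶜ := by
    rw [← preimage_compl, G.image_preimage]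
  rw [h2] at h1
  have h3 := (h1.image (fun z : E n => ‖z‖) continuous_norm.continuousOn).ordConnected
  obtain ⟨u, hu⟩ : ∃ u : E n, ‖u‖ = 1 := ⟨EuclideanSpace.single (⟨0, hn⟩, 0) 1, by simp⟩
  have e0 : (0 : ℝ) ∈ (fun z : E n => ‖z‖) '' (sphere 0 r)ᶜ :=
    ⟨0, by simp [hr.ne], by simp⟩
  have e1 : (2 * r : ℝ) ∈ (fun z : E n => ‖z‖) '' (sphere 0 r)ᶜ := by
    refine ⟨(2 * r) • u, ?_, ?_⟩
    · rw [mem_compl_iff, mem_sphere_zero_iff_norm, norm_smul, hu, mul_one,
        Real.norm_of_nonneg (by positivity)]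
      linarith
    · simp only
      rw [norm_smul, hu, mul_one, Real.norm_of_nonneg (by positivity)]
  obtain ⟨z, hz, hz2⟩ := h3.out e0 e1 (show r ∈ Icc 0 (2 * r) from ⟨hr.le, by linarith⟩)
  exact hz (by rw [mem_sphere_zero_iff_norm]; exact hz2)

end Pool.Agent.Y516.CP
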