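import Pool.Agent.Results.MP_cf1990_gt.EveryDim

set_option autoImplicit false

open MeasureTheory Metric Set Filter Topology
open scoped ENNReal ContDiff RealInnerProductSpace

namespace Pool.Agent.Y516.CP

open Pool.Agent.Results.MP_cf1990_gt.EveryDim

variable {n : ℕ}

/-- the complex structure -/
noncomputable def J : E n →ₗ[ℝ] E n where
  toFun z := WithLp.toLp 2 fun i => if i.2 = 0 then - z (i.1, 1) else z (i.1, 0)
  map_add' a b := by
    ext i
    simp only [PiLp.add_apply]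
    split_ifs <;> ring
  map_smul' a b := by
    ext i
    simp only [PiLp.smul_apply, smul_eq_mul, RingHom.id_apply]
    split_ifs <;> ring

/-- the complex structure, continuous version -/
noncomputable def Jc : E n →L[ℝ] E n := LinearMap.toContinuousLinearMap J

theorem Jc_apply (z : E n) : Jc z = J z := rfl

theorem J_apply_zero (z : E n) (j : Fin n) : J z (j, 0) = - z (j, 1) := by
  simp [J]

theorem J_apply_one (z : E n) (j : Fin n) : J z (j, 1) = z (j, 0) := by
  simp [J]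

theorem omega_eq (u v : E n) : omega u v = ⟪J u, v⟫ := by
  rw [PiLp.inner_apply, Fintype.sum_prod_type]
  unfold omega
  refine Finset.sum_congr rfl fun j _ => ?_
  rw [Fin.sum_univ_two, J_apply_zero, J_apply_one]
  simp
  ring

theorem J_J (z : E n) : J (J z) = - z := by
  ext ⟨j, a⟩
  fin_cases a
  · show J (J z) (j, 0) = - z (j, 0)
    rw [J_apply_zero, J_apply_one]
  · show J (J z) (j, 1) = - z (j, 1)
    rw [J_apply_one, J_apply_zero]

theorem inner_J_J (u v : E n) : ⟪J u, J v⟫ = ⟪u, v⟫ := by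
  rw [← omega_eq, omega_antisymm, omega_eq, J_J, inner_neg_left, neg_neg, real_inner_comm]

theorem norm_J (z : E n) : ‖J z‖ = ‖z‖ := by
  have h := inner_J_J z z
  rw [real_inner_self_eq_norm_sq, real_inner_self_eq_norm_sq] at h
  exact (pow_left_inj₀ (norm_nonneg _) (norm_nonneg _) two_ne_zero).mp h

theorem inner_J_self (z : E n) : ⟪J z, z⟫ = 0 := by
  have h1 : omega z z = - omega z z := omega_antisymm z z
  rw [← omega_eq]; linarith

/-- rotation by the angle `t` -/
noncomputable def rot (t : ℝ) (z : E n) : E n := Real.cos t • z + Real.sin t • J z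

theorem rot_zero (z : E n) : rot 0 z = z := by simp [rot]

theorem J_rot (t : ℝ) (z : E n) : J (rot t z) = rot t (J z) := by
  simp [rot]

theorem rot_rot (s t : ℝ) (z : E n) : rot s (rot t z) = rot (s + t) z := by
  simp only [rot, map_add, map_smul, J_J, Real.cos_add, Real.sin_add]
  module

theorem rot_neg_rot (t : ℝ) (z : E n) : rot (-t) (rot t z) = z := by
  rw [rot_rot, neg_add_cancel, rot_zero]

theorem inner_rot_rot (t : ℝ) (u v : E n) : ⟪rot t u, rot t v⟫ = ⟪u, v⟫ := by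
  have h1 : ⟪u, J v⟫ = - ⟪J u, v⟫ := by
    rw [← inner_J_J u (J v), J_J, inner_neg_right]
  simp only [rot, inner_add_left, inner_add_right, inner_smul_left, inner_smul_right, inner_J_J,
    h1, conj_trivial]
  have := Real.sin_sq_add_cos_sq t
  linear_combination ⟪u, v⟫ * this

theorem norm_rot (t : ℝ) (z : E n) : ‖rot t z‖ = ‖z‖ := by
  have h := inner_rot_rot t z z
  rw [real_inner_self_eq_norm_sq, real_inner_self_eq_norm_sq] at h
  exact (pow_left_inj₀ (norm_nonneg _) (norm_nonneg _) two_ne_zero).mp h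

theorem rot_smul (t a : ℝ) (z : E n) : rot t (a • z) = a • rot t z := by
  simp only [rot, map_smul]; module

theorem rot_add (t : ℝ) (z w : E n) : rot t (z + w) = rot t z + rot t w := by
  simp only [rot, map_add]; module

/-- the rotation as a continuous linear map -/
noncomputable def rotL (t : ℝ) : E n →L[ℝ] E n :=
  Real.cos t • ContinuousLinearMap.id ℝ (E n) + Real.sin t • Jc

theorem rotL_apply (t : ℝ) (z : E n) : rotL t z = rot t z := rfl

/-- the twist map with profile `h` -/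
noncomputable def tw (h : ℝ → ℝ) (z : E n) : E n := rot (h (‖z‖ ^ 2)) z

theorem norm_tw (h : ℝ → ℝ) (z : E n) : ‖tw h z‖ = ‖z‖ := norm_rot _ _

theorem tw_neg_tw (h : ℝ → ℝ) (z : E n) : tw (fun x => - h x) (tw h z) = z := by
  unfold tw
  rw [norm_rot]
  exact rot_neg_rot _ _

theorem tw_tw_neg (h : ℝ → ℝ) (z : E n) : tw h (tw (fun x => - h x) z) = z := by
  have := tw_neg_tw (fun x => - h x) z
  simpa using this

/-- the twist as a bijection -/
noncomputable def twE (h : ℝ → ℝ) : E n ≃ E n where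
  toFun := tw h
  invFun := tw fun x => - h x
  left_inv := tw_neg_tw h
  right_inv := tw_tw_neg h

theorem continuous_tw {h : ℝ → ℝ} (hh : Continuous h) : Continuous (tw h : E n → E n) := by
  have h1 : Continuous (fun z : E n => J z) := (Jc : E n →L[ℝ] E n).continuous
  unfold tw rot
  fun_prop

/-- the twist as a homeomorphism -/
noncomputable def twH (h : ℝ → ℝ) (hh : Continuous h) : E n ≃ₜ E n where
  toEquiv := twE h
  continuous_toFun := continuous_tw hh
  continuous_invFun := by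
    show Continuous (tw (fun x => - h x) : E n → E n)
    exact continuous_tw (by fun_prop)

theorem twH_apply {h : ℝ → ℝ} (hh : Continuous h) (z : E n) : twH h hh z = tw h z := rfl

theorem twH_symm_apply {h : ℝ → ℝ} (hh : Continuous h) (z : E n) :
    (twH h hh).symm z = tw (fun x => - h x) z := rfl

/-- the linear map `u ↦ rot t u + 2 d ⟪z, u⟫ J (rot t z)` -/
noncomputable def dtw (t d : ℝ) (z : E n) : E n →L[ℝ] E n :=
  rotL t + ((2 * d) • (innerSL ℝ z)).smulRight (J (rot t z))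

theorem dtw_apply (t d : ℝ) (z u : E n) :
    dtw t d z u = rot t u + (2 * d * ⟪z, u⟫) • J (rot t z) := by
  simp [dtw, rotL_apply]

theorem omega_dtw (t d : ℝ) (z u v : E n) :
    omega (dtw t d z u) (dtw t d z v) = omega u v := by
  rw [dtw_apply, dtw_apply, omega_eq, omega_eq]
  simp only [map_add, map_smul, inner_add_left, inner_add_right, inner_smul_left,
    inner_smul_right, J_J, inner_neg_left, inner_J_J, conj_trivial]
  have h1 : ⟪J (rot t u), rot t v⟫ = ⟪J u, v⟫ := by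
    rw [J_rot, inner_rot_rot]
  have h2 : ⟪rot t u, rot t z⟫ = ⟪u, z⟫ := inner_rot_rot _ _ _
  have h3 : ⟪rot t z, rot t v⟫ = ⟪z, v⟫ := inner_rot_rot _ _ _
  have h4 : ⟪rot t z, J (rot t z)⟫ = 0 := by
    rw [real_inner_comm]; exact inner_J_self _
  rw [h1, h2, h3, h4, real_inner_comm u z]
  ring

/-- derivative of the twist where the profile is differentiable -/
theorem hasFDerivAt_tw {h : ℝ → ℝ} {z : E n} {d : ℝ} (hd : HasDerivAt h d (‖z‖ ^ 2)) :
    HasFDerivAt (tw h) (dtw (h (‖z‖ ^ 2)) d z) z := by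
  have h1 : HasFDerivAt (fun z : E n => ‖z‖ ^ 2) (2 • innerSL ℝ z) z :=
    (hasStrictFDerivAt_norm_sq z).hasFDerivAt
  have h2 := hd.comp_hasFDerivAt z h1
  have h3 := (Real.hasDerivAt_cos (h (‖z‖ ^ 2))).comp_hasFDerivAt z h2
  have h4 := (Real.hasDerivAt_sin (h (‖z‖ ^ 2))).comp_hasFDerivAt z h2
  have h5 := h3.smul (hasFDerivAt_id z)
  have h6 := h4.smul (Jc : E n →L[ℝ] E n).hasFDerivAt (x := z)
  have h7 := h5.add h6
  refine h7.congr_fderiv ?_
  ext1 u
  rw [dtw_apply]
  simp only [add_apply, smul_apply,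
    ContinuousLinearMap.smulRight_apply, Function.comp_apply, ContinuousLinearMap.id_apply,
    innerSL_apply_apply, smul_eq_mul, Jc_apply, id_eq, rot, map_add, map_smul, J_J, nsmul_eq_mul,
    Nat.cast_ofNat]
  module

/-- derivative of the twist at the origin -/
theorem hasFDerivAt_tw_zero {h : ℝ → ℝ} (hh : Continuous h) :
    HasFDerivAt (tw h : E n → E n) (dtw (h 0) 0 0) 0 := by
  have h0 : (dtw (h 0) 0 0 : E n →L[ℝ] E n) = rotL (h 0) := by
    ext1 u
    rw [dtw_apply]; simp [rotL_apply]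
  rw [h0, hasFDerivAt_iff_isLittleO_nhds_zero]
  have h1 : (fun v : E n => tw h (0 + v) - tw h 0 - rotL (h 0) v) =
      fun v => (rotL (h (‖v‖ ^ 2)) - rotL (h 0) : E n →L[ℝ] E n) v := by
    ext1 v
    simp [tw, rotL_apply, rot]
  rw [h1]
  have h2 : Tendsto (fun v : E n => ‖(rotL (h (‖v‖ ^ 2)) - rotL (h 0) : E n →L[ℝ] E n)‖) (𝓝 0)
      (𝓝 0) := by
    have h3 : Continuous (fun v : E n => ‖(rotL (h (‖v‖ ^ 2)) - rotL (h 0) : E n →L[ℝ] E n)‖) := by
      unfold rotL
      fun_prop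
    have h4 := h3.tendsto 0
    simpa using h4
  rw [Asymptotics.isLittleO_iff]
  intro c hc
  filter_upwards [h2.eventually (gt_mem_nhds hc)] with v hv
  refine (ContinuousLinearMap.le_opNorm _ v).trans ?_
  have := norm_nonneg v
  gcongr



theorem contDiff_tw {g : ℝ → ℝ} (hg : ContDiff ℝ ∞ g) : ContDiff ℝ ∞ (tw g : E n → E n) := by
  have h1 : ContDiff ℝ ∞ (fun z : E n => (Jc : E n →L[ℝ] E n) z) := (Jc : E n →L[ℝ] E n).contDiff
  have h0 : ContDiff ℝ ∞ (fun z : E n => ‖z‖ ^ 2) := contDiff_norm_sq ℝ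
  have h2 : ContDiff ℝ ∞ (fun z : E n => g (‖z‖ ^ 2)) := ContDiff.comp (g := g) hg h0
  have h3 : ContDiff ℝ ∞ (fun z : E n => Real.cos (g (‖z‖ ^ 2))) := h2.cos
  have h4 : ContDiff ℝ ∞ (fun z : E n => Real.sin (g (‖z‖ ^ 2))) := h2.sin
  have h6 : ContDiff ℝ ∞ (fun z : E n => Real.cos (g (‖z‖ ^ 2)) • z) := h3.smul contDiff_id
  have h7 : ContDiff ℝ ∞ (fun z : E n => Real.sin (g (‖z‖ ^ 2)) • (Jc : E n →L[ℝ] E n) z) :=
    h4.smul h1
  have h8 : ContDiff ℝ ∞ (fun z : E n => Real.cos (g (‖z‖ ^ 2)) • z + Real.sin (g (‖z‖ ^ 2)) • (Jc : E n →L[ℝ] E n) z) := h6.add h7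
  exact h8

/-- the twist by a smooth profile is a symplectomorphism -/
theorem isSymplecto_tw {g : ℝ → ℝ} (hg : ContDiff ℝ ∞ g) : IsSymplecto (twE g : E n ≃ E n) := by
  have hc1 : ContDiff ℝ ∞ (tw g : E n → E n) := contDiff_tw hg
  have hc2 : ContDiff ℝ ∞ (tw (fun x => - g x) : E n → E n) := contDiff_tw hg.neg
  refine ⟨hc1, hc2, ?_⟩
  intro x u v
  have h1 : HasDerivAt g (deriv g (‖x‖ ^ 2)) (‖x‖ ^ 2) :=
    ((hg.differentiable (by simp)) _).hasDerivAt
  have h2 : fderiv ℝ (tw g) x = dtw (g (‖x‖ ^ 2)) (deriv g (‖x‖ ^ 2)) x :=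
    (hasFDerivAt_tw h1).fderiv
  change omega (fderiv ℝ (tw g) x u) (fderiv ℝ (tw g) x v) = omega u v
  rw [h2]
  exact omega_dtw _ _ _ _ _

theorem contDiffAt_tw {h : ℝ → ℝ} {z : E n} (hh : ContDiffAt ℝ 2 h (‖z‖ ^ 2)) :
    ContDiffAt ℝ 2 (tw h) z := by
  have h1 : ContDiffAt ℝ 2 (fun z : E n => (Jc : E n →L[ℝ] E n) z) z :=
    (Jc : E n →L[ℝ] E n).contDiff.contDiffAt
  have h0 : ContDiffAt ℝ 2 (fun z : E n => ‖z‖ ^ 2) z := (contDiff_norm_sq ℝ).contDiffAt
  have h2 : ContDiffAt ℝ 2 (fun z : E n => h (‖z‖ ^ 2)) z := ContDiffAt.comp (g := h) z hh h0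
  have h3 : ContDiffAt ℝ 2 (fun z : E n => Real.cos (h (‖z‖ ^ 2))) z := h2.cos
  have h4 : ContDiffAt ℝ 2 (fun z : E n => Real.sin (h (‖z‖ ^ 2))) z := h2.sin
  have h5 : ContDiffAt ℝ 2 (fun z : E n => z) z := contDiffAt_id
  have h6 : ContDiffAt ℝ 2 (fun z : E n => Real.cos (h (‖z‖ ^ 2)) • z) z := h3.smul h5
  have h7 : ContDiffAt ℝ 2 (fun z : E n => Real.sin (h (‖z‖ ^ 2)) • (Jc : E n →L[ℝ] E n) z) z :=
    h4.smul h1
  exact h6.add h7

theorem dist_rot_le (s t : ℝ) (z : E n) : dist (rot s z) (rot t z) ≤ |s - t| * (2 * ‖z‖) := by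
  have h1 : rot s z - rot t z = (Real.cos s - Real.cos t) • z + (Real.sin s - Real.sin t) • J z := by
    unfold rot; module
  rw [dist_eq_norm, h1]
  refine (norm_add_le _ _).trans ?_
  rw [norm_smul, norm_smul, norm_J]
  have hc : ‖Real.cos s - Real.cos t‖ ≤ |s - t| := by
    have := Real.lipschitzWith_cos.dist_le_mul s t
    rw [Real.dist_eq, Real.dist_eq] at this
    simpa using this
  have hs : ‖Real.sin s - Real.sin t‖ ≤ |s - t| := by
    have := Real.lipschitzWith_sin.dist_le_mul s t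
    rw [Real.dist_eq, Real.dist_eq] at this
    simpa using this
  have := norm_nonneg z
  nlinarith
end Pool.Agent.Y516.CP
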