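import Pool.Agent.Y516.CP.Sep
import Pool.Agent.Y516.CP.Profile

set_option autoImplicit false

open MeasureTheory Metric Set Filter Topology
open scoped ENNReal ContDiff RealInnerProductSpace

namespace Pool.Agent.Y516.CP

open Pool.Agent.Results.MP_cf1990_gt.EveryDim

variable {n : ℕ}

/-- a sphere with spokes -/
def Y (D : ℕ → E n) (k : ℕ) : Set (E n) :=
  sphere 0 (rad k) ∪ Spk D k (rad k / 2) (3 / 2 * rad k)

/-- the test set -/
def V (D : ℕ → E n) : Set (E n) := {z | z ≠ 0 ∧ ‖z‖ < 1 ∧ ∀ k, z ∉ Y D k}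

theorem Y_norm {D : ℕ → E n} (hD : ∀ i, ‖D i‖ = 1) {k : ℕ} {z : E n} (hz : z ∈ Y D k) :
    rad k / 2 ≤ ‖z‖ ∧ ‖z‖ ≤ 3 / 2 * rad k := by
  have hr := rad_pos k
  rcases hz with hz | ⟨i, -, t, h1, h2, rfl⟩
  · rw [mem_sphere_zero_iff_norm] at hz
    rw [hz]; constructor <;> linarith
  · rw [norm_smul, hD, mul_one, Real.norm_of_nonneg (by linarith)]
    exact ⟨h1, h2⟩

theorem Y_closed (D : ℕ → E n) (k : ℕ) : IsClosed (Y D k) := by
  refine isClosed_sphere.union ?_
  have h1 : Spk D k (rad k / 2) (3 / 2 * rad k) =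
      ⋃ i ∈ Finset.range (k + 1), (fun t : ℝ => t • D i) '' Icc (rad k / 2) (3 / 2 * rad k) := by
    ext z
    simp only [Spk, mem_ofPred_eq, mem_iUnion, Finset.mem_range, mem_image, mem_Icc,
      exists_prop]
    constructor
    · rintro ⟨i, hi, t, h1, h2, rfl⟩
      exact ⟨i, by omega, t, ⟨h1, h2⟩, rfl⟩
    · rintro ⟨i, hi, t, ⟨h1, h2⟩, rfl⟩
      exact ⟨i, by omega, t, h1, h2, rfl⟩
  rw [h1]
  refine isClosed_biUnion_finset fun i _ => ?_
  exact (isCompact_Icc.image (by fun_prop)).isClosed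

theorem V_open {D : ℕ → E n} (hD : ∀ i, ‖D i‖ = 1) : IsOpen (V D) := by
  rw [isOpen_iff_mem_nhds]
  rintro z ⟨h0, h1, h2⟩
  have hz : 0 < ‖z‖ := norm_pos_iff.mpr h0
  obtain ⟨N, hN⟩ := (rad_tendsto.eventually (gt_mem_nhds
    (show 0 < ‖z‖ / 4 by positivity))).exists_forall_of_atTop
  have hc : Continuous fun w : E n => ‖w‖ := continuous_norm
  have e1 : ∀ᶠ w in 𝓝 z, ‖z‖ / 2 < ‖w‖ := hc.continuousAt.eventually (lt_mem_nhds (by linarith))
  have e2 : ∀ᶠ w in 𝓝 z, ‖w‖ < 1 := hc.continuousAt.eventually (gt_mem_nhds h1)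
  have e3 : ∀ᶠ w in 𝓝 z, ∀ k ∈ Finset.range N, w ∉ Y D k := by
    rw [Filter.eventually_all_finset]
    intro k _
    exact (Y_closed D k).isOpen_compl.mem_nhds (h2 k)
  filter_upwards [e1, e2, e3] with w g1 g2 g3
  refine ⟨?_, g2, fun k => ?_⟩
  · intro h; rw [h, norm_zero] at g1; linarith
  · by_cases hk : k < N
    · exact g3 k (Finset.mem_range.mpr hk)
    · intro hw
      have := (Y_norm hD hw).2
      have := hN k (by omega)
      linarith

theorem V_dense {D : ℕ → E n} (hn : 0 < n) : closedBall (0 : E n) 1 ⊆ closure (V D) := by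
  have h1 : (volume : Measure (E n)) ({0} ∪ ⋃ k, Y D k) = 0 := by
    refine measure_union_null ?_ (measure_iUnion_null fun k =>
      measure_union_null (null_sphere hn _) (null_spk hn _ _ _ _))
    have := null_sphere hn 0
    rwa [sphere_zero] at this
  have h2 : Dense ({0} ∪ ⋃ k, Y D k)ᶜ := dense_of_null h1
  have h3 : ball (0 : E n) 1 ∩ ({0} ∪ ⋃ k, Y D k)ᶜ ⊆ V D := by
    rintro z ⟨hz, hz2⟩
    simp only [mem_compl_iff, mem_union, mem_singleton_iff, mem_iUnion, not_or, not_exists] at hz2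
    exact ⟨hz2.1, by simpa using hz, hz2.2⟩
  rw [← closure_ball (0 : E n) one_ne_zero]
  exact closure_minimal ((h2.open_subset_closure_inter isOpen_ball).trans (closure_mono h3))
    isClosed_closure

theorem V_bdd (D : ℕ → E n) : V D ⊆ ball 0 1 := fun z hz => by simpa using hz.2.1

/-- gaps of the set of norms of the complement of `V` -/
theorem gap {D : ℕ → E n} (hD : ∀ i, ‖D i‖ = 1) {z : E n} (hz : z ∉ V D) (k : ℕ) :
    ‖z‖ ≠ 7 / 4 * rad k ∧ ‖z‖ ≠ rad k / 4 := by
  have hr := rad_pos k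
  have hh := rad_le_half k
  by_cases h0 : z = 0
  · rw [h0, norm_zero]; constructor <;> intro h <;> linarith
  by_cases h1 : 1 ≤ ‖z‖
  · constructor <;> intro h <;> linarith
  push Not at h1
  have h2 : ∃ j, z ∈ Y D j := by
    by_contra hcon
    push Not at hcon
    exact hz ⟨h0, h1, hcon⟩
  obtain ⟨j, hj⟩ := h2
  obtain ⟨g1, g2⟩ := Y_norm hD hj
  have hrj := rad_pos j
  rcases lt_trichotomy j k with h | h | h
  · have := rad_lt h
    constructor <;> intro h <;> linarith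
  · subst h
    constructor <;> intro h <;> linarith
  · have := rad_lt h
    constructor <;> intro h <;> linarith

theorem norm_sep {C : Set (E n)} (hC : IsPreconnected C) {g : ℝ} (hg : ∀ z ∈ C, ‖z‖ ≠ g)
    {z w : E n} (hz : z ∈ C) (hw : w ∈ C) (h : ‖z‖ < g) : ‖w‖ < g := by
  by_contra hcon
  push Not at hcon
  have h3 := (hC.image (fun z : E n => ‖z‖) continuous_norm.continuousOn).ordConnected
  obtain ⟨v, hv, hv2⟩ := h3.out ⟨z, hz, rfl⟩ ⟨w, hw, rfl⟩ (show g ∈ Icc _ _ from ⟨h.le, hcon⟩)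
  exact hg v hv hv2

/-- preconnected sets avoiding `V` -/
theorem pre_cases {D : ℕ → E n} (hD : ∀ i, ‖D i‖ = 1) {C : Set (E n)} (hC : IsPreconnected C)
    (hCV : ∀ z ∈ C, z ∉ V D) {z₀ : E n} (hz₀ : z₀ ∈ C) :
    (∀ z ∈ C, 1 ≤ ‖z‖) ∨ (∀ z ∈ C, z = 0) ∨ ∃ k, C ⊆ Y D k := by
  by_cases h0 : z₀ = 0
  · right; left
    intro z hz
    by_contra hne
    have hpos : 0 < ‖z‖ := norm_pos_iff.mpr hne
    obtain ⟨k, hk⟩ := (rad_tendsto.eventually (gt_mem_nhds
      (show 0 < ‖z‖ / 2 by positivity))).exists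
    have hr := rad_pos k
    have := norm_sep hC (fun w hw => (gap hD (hCV w hw) k).1) hz₀ hz (by
      rw [h0, norm_zero]; linarith)
    linarith
  by_cases h1 : 1 ≤ ‖z₀‖
  · left
    intro z hz
    have g1 : ¬ ‖z‖ < 7 / 4 * rad 0 := fun h => by
      have := norm_sep hC (fun w hw => (gap hD (hCV w hw) 0).1) hz hz₀ h
      rw [rad_zero] at this
      linarith
    rw [rad_zero] at g1
    by_contra h2
    push Not at h2 g1
    refine hCV z hz ⟨?_, h2, fun j hj => ?_⟩
    · intro h; rw [h, norm_zero] at g1; linarith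
    · have := (Y_norm hD hj).2
      have := rad_le_half j
      linarith
  · push Not at h1
    right; right
    have h2 : ∃ j, z₀ ∈ Y D j := by
      by_contra hcon
      push Not at hcon
      exact hCV z₀ hz₀ ⟨h0, h1, hcon⟩
    obtain ⟨k, hk⟩ := h2
    obtain ⟨g1, g2⟩ := Y_norm hD hk
    have hr := rad_pos k
    have hh := rad_le_half k
    refine ⟨k, fun z hz => ?_⟩
    have u1 : ‖z‖ < 7 / 4 * rad k :=
      norm_sep hC (fun w hw => (gap hD (hCV w hw) k).1) hz₀ hz (by linarith)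
    have u2 : rad k / 4 < ‖z‖ := by
      by_contra hcon
      push Not at hcon
      have hne := (gap hD (hCV z hz) k).2
      have := norm_sep hC (fun w hw => (gap hD (hCV w hw) k).2) hz hz₀
        (lt_of_le_of_ne hcon hne)
      linarith
    have h3 : ∃ j, z ∈ Y D j := by
      by_contra hcon
      push Not at hcon
      refine hCV z hz ⟨?_, by linarith, hcon⟩
      intro h; rw [h, norm_zero] at u2; linarith
    obtain ⟨j, hj⟩ := h3
    obtain ⟨e1, e2⟩ := Y_norm hD hj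
    have hrj := rad_pos j
    have : j = k := by
      rcases lt_trichotomy j k with h | h | h
      · have := rad_lt h; linarith
      · exact h
      · have := rad_lt h; linarith
    rw [← this]; exact hj

/-- a dense sequence of directions -/
theorem exists_dir (hn : 0 < n) : ∃ D : ℕ → E n, (∀ i, ‖D i‖ = 1) ∧
    ∀ u₀ : E n, ‖u₀‖ = 1 → ∀ η : ℝ, 0 < η → ∃ i, dist (D i) u₀ < η := by
  have : Nonempty (sphere (0 : E n) 1) :=
    ⟨⟨EuclideanSpace.single (⟨0, hn⟩, 0) 1, by simp⟩⟩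
  refine ⟨fun i => (TopologicalSpace.denseSeq (sphere (0 : E n) 1) i : E n), fun i => ?_, ?_⟩
  · exact mem_sphere_zero_iff_norm.mp (TopologicalSpace.denseSeq (sphere (0 : E n) 1) i).2
  · intro u₀ hu η hη
    obtain ⟨i, hi⟩ := (TopologicalSpace.denseRange_denseSeq (sphere (0 : E n) 1)).exists_dist_lt
      (⟨u₀, by simpa using hu⟩ : sphere (0 : E n) 1) hη
    refine ⟨i, ?_⟩
    rw [dist_comm]
    exact hi

end Pool.Agent.Y516.CP
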